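import Mathlib

/-!
A smooth compactly supported product density on a finite dimensional cube, with integration by
parts against Lipschitz functions, a dimension free Fisher information bound and a fourth
moment bound.
-/

set_option autoImplicit false

namespace Pool.Agent.Lib.MP_ed68f3_an

open Finset MeasureTheory

theorem exists_bump : ∃ b : ℝ → ℝ, ContDiff ℝ 1 b ∧ (∀ x, b x ≠ 0 → |x| ≤ 1) ∧
    (∀ x, b (-x) = b x) ∧ ∫ x, b x ^ 2 = 1 := by
  let f : ContDiffBump (0 : ℝ) := ⟨1 / 2, 1, by norm_num, by norm_num⟩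
  have hc : Continuous (fun x => f x ^ 2) := f.continuous.pow 2
  have hs : HasCompactSupport (fun x => f x ^ 2) := by
    have := f.hasCompactSupport.mul_left (f := fun x => f x)
    refine this.mono ?_
    intro x hx
    simpa [sq] using hx
  have hZ : 0 < ∫ x, f x ^ 2 := by
    refine Continuous.integral_pos_of_hasCompactSupport_nonneg_nonzero hc hs
      (fun x => sq_nonneg _) (x := 0) ?_
    have : f 0 = 1 := f.one_of_mem_closedBall (Metric.mem_closedBall_self f.rIn_pos.le)
    simp [this]
  set Z := ∫ x, f x ^ 2 with hZdef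
  refine ⟨fun x => (Real.sqrt Z)⁻¹ * f x, contDiff_const.mul f.contDiff, ?_, ?_, ?_⟩
  · intro x hx
    have h1 : f x ≠ 0 := right_ne_zero_of_mul hx
    have h2 : x ∈ Function.support f := h1
    rw [f.support_eq] at h2
    have h3 : |x| < 1 := by simpa [f] using h2
    exact h3.le
  · intro x
    simp only [f.neg]
  · simp only [mul_pow]
    rw [integral_const_mul, ← hZdef, inv_pow, Real.sq_sqrt hZ.le, inv_mul_cancel₀ hZ.ne']

theorem compact_of_bound {b : ℝ → ℝ} (hb : ∀ x, b x ≠ 0 → |x| ≤ 1) : HasCompactSupport b := by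
  refine HasCompactSupport.intro (isCompact_Icc (a := (-1 : ℝ)) (b := 1)) ?_
  intro x hx
  by_contra h
  exact hx (abs_le.mp (hb x h))

theorem compact_of_bound_pi {C : Type} [Fintype C] {F : Type*} [Zero F] [TopologicalSpace F]
    {P : (C → ℝ) → F}
    (hb : ∀ x, P x ≠ 0 → ∀ c, |x c| ≤ 1) : HasCompactSupport P := by
  refine HasCompactSupport.intro (isCompact_closedBall (0 : C → ℝ) 1) ?_
  intro x hx
  by_contra h
  apply hx
  rw [mem_closedBall_zero_iff, pi_norm_le_iff_of_nonneg zero_le_one]
  exact fun c => hb x h c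

theorem mgf_bump {b : ℝ → ℝ} (hc : Continuous b) (hb : ∀ x, b x ≠ 0 → |x| ≤ 1)
    (he : ∀ x, b (-x) = b x) (h1 : ∫ x, b x ^ 2 = 1) (t : ℝ) :
    ∫ x, Real.exp (t * x) * b x ^ 2 ≤ Real.exp (t ^ 2 / 2) := by
  have hs : ∀ g : ℝ → ℝ, Continuous g → Integrable (fun x => g x * b x ^ 2) := by
    intro g hg
    refine Continuous.integrable_of_hasCompactSupport (hg.mul (hc.pow 2)) ?_
    refine compact_of_bound fun x hx => hb x ?_
    intro h; apply hx; simp [h]
  have e1 : ∫ x, Real.exp (t * x) * b x ^ 2 = ∫ x, Real.exp (-(t * x)) * b x ^ 2 := by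
    rw [← integral_neg_eq_self (fun x => Real.exp (t * x) * b x ^ 2) volume]
    simp only [he, mul_neg]
  have e2 : ∫ x, Real.exp (t * x) * b x ^ 2 = ∫ x, Real.cosh (t * x) * b x ^ 2 := by
    have : ∀ x, Real.cosh (t * x) * b x ^ 2 =
        (1 / 2) * (Real.exp (t * x) * b x ^ 2 + Real.exp (-(t * x)) * b x ^ 2) := by
      intro x; rw [Real.cosh_eq]; ring
    simp only [this]
    rw [integral_const_mul, integral_add (hs _ (by fun_prop)) (hs _ (by fun_prop)), ← e1]
    ring
  rw [e2]
  calc ∫ x, Real.cosh (t * x) * b x ^ 2 ≤ ∫ x, Real.exp (t ^ 2 / 2) * b x ^ 2 := by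
        refine integral_mono (hs _ (by fun_prop)) (hs _ (by fun_prop)) fun x => ?_
        by_cases hx : b x = 0
        · simp [hx]
        · refine mul_le_mul_of_nonneg_right ?_ (sq_nonneg _)
          refine (Real.cosh_le_exp_half_sq _).trans (Real.exp_le_exp.mpr ?_)
          have h2 : x ^ 2 ≤ 1 := by
            have := abs_le.mp (hb x hx)
            nlinarith [this.1, this.2]
          rw [mul_pow]
          nlinarith [sq_nonneg t]
    _ = Real.exp (t ^ 2 / 2) := by rw [integral_const_mul, h1, mul_one]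

theorem pow_four_le (y : ℝ) : y ^ 4 ≤ 24 * (Real.exp y + Real.exp (-y)) := by
  have h1 := Real.pow_div_factorial_le_exp |y| (abs_nonneg y) 4
  have h2 : |y| ^ 4 = y ^ 4 := by
    rw [show (4 : ℕ) = 2 * 2 from rfl, pow_mul, sq_abs, ← pow_mul]
  have h3 : Real.exp |y| ≤ Real.exp y + Real.exp (-y) := by
    rcases abs_choice y with h | h <;> rw [h] <;> linarith [Real.exp_pos y, Real.exp_pos (-y)]
  rw [h2] at h1
  norm_num [Nat.factorial] at h1
  linarith

/-- The properties of the product density that are used later. -/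
structure Dens (C : Type) [Fintype C] (M : ℝ) where
  P : (C → ℝ) → ℝ
  R : C → (C → ℝ) → ℝ
  contP : Continuous P
  contR : ∀ c, Continuous (R c)
  suppP : ∀ x, P x ≠ 0 → ∀ c, |x c| ≤ 1
  suppR : ∀ c, HasCompactSupport (R c)
  intP : ∫ x, P x ^ 2 = 1
  intR : ∀ c, ∫ x, R c x ^ 2 = M
  ibp : ∀ (f : (C → ℝ) → ℝ) (K : NNReal), LipschitzWith K f → ∀ t : C → ℝ,
    ∫ x, (∑ c, t c * (P x * R c x)) * f x = ∫ x, lineDeriv ℝ f x t * P x ^ 2
  mom4 : ∀ (a : C → ℝ) (N : ℝ), 0 < N → ∑ c, a c ^ 2 ≤ N →
    ∫ x, (∑ c, a c * x c) ^ 4 * P x ^ 2 ≤ 100 * N ^ 2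

theorem exists_dens : ∃ M : ℝ, 0 ≤ M ∧ ∀ (C : Type) [Fintype C], Nonempty (Dens C M) := by
  obtain ⟨b, hb, hs, he, h1⟩ := exists_bump
  have hc : Continuous b := hb.continuous
  have hd : Continuous (deriv b) := hb.continuous_deriv le_rfl
  have hdiff : Differentiable ℝ b := hb.differentiable one_ne_zero
  have hbs : HasCompactSupport b := compact_of_bound hs
  refine ⟨∫ x, (-2 * deriv b x) ^ 2, integral_nonneg fun x => sq_nonneg _, ?_⟩
  intro C _
  classical
  have hP : ∀ x : C → ℝ, (∏ c, b (x c)) ≠ 0 → ∀ c, |x c| ≤ 1 := by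
    intro x hx c
    exact hs _ (Finset.prod_ne_zero_iff.mp hx c (Finset.mem_univ c))
  have hPc : Continuous fun x : C → ℝ => ∏ c, b (x c) := by fun_prop
  have hint : ∀ g : (C → ℝ) → ℝ, Continuous g →
      Integrable (fun x => g x * (∏ c, b (x c)) ^ 2) := by
    intro g hg
    refine Continuous.integrable_of_hasCompactSupport (hg.mul (hPc.pow 2)) ?_
    refine compact_of_bound_pi fun x hx => hP x ?_
    intro h; apply hx; simp [h]
  have hmgf : ∀ a : C → ℝ, ∑ c, a c ^ 2 ≤ 1 →
      ∫ x : C → ℝ, Real.exp (∑ c, a c * x c) * (∏ c, b (x c)) ^ 2 ≤ 2 := by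
    intro a ha
    have e1 : ∀ x : C → ℝ, Real.exp (∑ c, a c * x c) * (∏ c, b (x c)) ^ 2 =
        ∏ c, (Real.exp (a c * x c) * b (x c) ^ 2) := by
      intro x
      rw [Real.exp_sum, Finset.prod_mul_distrib, Finset.prod_pow]
    simp only [e1]
    rw [integral_fintype_prod_volume_eq_prod (fun c y => Real.exp (a c * y) * b y ^ 2)]
    calc ∏ c, ∫ y, Real.exp (a c * y) * b y ^ 2 ≤ ∏ c, Real.exp (a c ^ 2 / 2) :=
          Finset.prod_le_prod (fun c _ => integral_nonneg fun y => by positivity)
            (fun c _ => mgf_bump hc hs he h1 (a c))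
      _ = Real.exp ((∑ c, a c ^ 2) / 2) := by rw [← Real.exp_sum, Finset.sum_div]
      _ ≤ Real.exp (1 / 2) := Real.exp_le_exp.mpr (by linarith)
      _ ≤ 2 := by
          have := Real.exp_one_lt_d9
          have h2 : Real.exp (1 / 2) * Real.exp (1 / 2) = Real.exp 1 := by
            rw [← Real.exp_add]; norm_num
          nlinarith [Real.exp_pos (1 / 2)]
  refine ⟨⟨fun x => ∏ c, b (x c),
    fun c x => (-2 * deriv b (x c)) * ∏ c' ∈ Finset.univ.erase c, b (x c'), hPc, ?_, hP, ?_,
    ?_, ?_, ?_, ?_⟩⟩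
  · intro c
    fun_prop
  · intro c
    refine HasCompactSupport.intro (isCompact_closedBall (0 : C → ℝ) 1) ?_
    intro x hx
    rw [mem_closedBall_zero_iff, pi_norm_le_iff_of_nonneg zero_le_one] at hx
    push Not at hx
    obtain ⟨c', hc'⟩ := hx
    rw [Real.norm_eq_abs] at hc'
    by_cases h : c' = c
    · subst h
      have : deriv b (x c') = 0 := by
        have hev : b =ᶠ[nhds (x c')] fun _ => 0 := by
          have ho : IsOpen {y : ℝ | 1 < |y|} := isOpen_lt continuous_const continuous_abs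
          filter_upwards [ho.mem_nhds hc'] with y hy
          by_contra hne
          exact absurd (hs y hne) (not_le.mpr hy)
        rw [hev.deriv_eq]; simp
      simp [this]
    · have : b (x c') = 0 := by
        by_contra hne
        exact absurd (hs _ hne) (not_le.mpr hc')
      rw [Finset.prod_eq_zero (Finset.mem_erase.mpr ⟨h, Finset.mem_univ _⟩) this, mul_zero]
  · simp only [← Finset.prod_pow]
    rw [integral_fintype_prod_volume_eq_prod (fun (_ : C) y => b y ^ 2)]
    simp [h1]
  · intro c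
    have e1 : ∀ x : C → ℝ, ((-2 * deriv b (x c)) * ∏ c' ∈ Finset.univ.erase c, b (x c')) ^ 2 =
        ∏ c', (if c' = c then (-2 * deriv b (x c')) ^ 2 else b (x c') ^ 2) := by
      intro x
      rw [← Finset.mul_prod_erase Finset.univ _ (Finset.mem_univ c), if_pos rfl, mul_pow,
        ← Finset.prod_pow]
      congr 1
      refine Finset.prod_congr rfl fun c' hc' => ?_
      rw [if_neg (Finset.mem_erase.mp hc').1]
    simp only [e1]
    rw [integral_fintype_prod_volume_eq_prod
      (fun c' y => if c' = c then (-2 * deriv b y) ^ 2 else b y ^ 2),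
      ← Finset.mul_prod_erase Finset.univ _ (Finset.mem_univ c)]
    simp only [if_true]
    rw [Finset.prod_eq_one, mul_one]
    intro c' hc'
    simp only [if_neg (Finset.mem_erase.mp hc').1]
    exact h1
  · intro f K hf t
    have hcd : ContDiff ℝ 1 fun x : C → ℝ => (∏ c, b (x c)) ^ 2 := by
      refine ContDiff.pow ?_ 2
      exact contDiff_prod fun c _ => hb.comp (contDiff_apply ℝ ℝ c)
    have hcs : HasCompactSupport fun x : C → ℝ => (∏ c, b (x c)) ^ 2 := by
      refine compact_of_bound_pi fun x hx => hP x ?_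
      intro h; apply hx; simp [h]
    obtain ⟨D, hD⟩ := ContDiff.lipschitzWith_of_hasCompactSupport hcs hcd one_ne_zero
    rw [LipschitzWith.integral_lineDeriv_mul_eq hf hD hcs t]
    refine integral_congr_ae (Filter.Eventually.of_forall fun x => ?_)
    simp only
    congr 1
    symm
    have h2 : ∀ c ∈ (Finset.univ : Finset C),
        HasDerivAt (fun s : ℝ => b ((x + s • (-t)) c)) (deriv b (x c) * (-t c)) 0 := by
      intro c _
      have h3 : HasDerivAt (fun s : ℝ => (x + s • (-t)) c) (-t c) 0 := by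
        simpa using ((hasDerivAt_id (0 : ℝ)).mul_const (-t c)).const_add (x c)
      have h4 : HasDerivAt b (deriv b (x c)) ((x + (0 : ℝ) • (-t)) c) := by
        simpa using (hdiff (x c)).hasDerivAt
      exact h4.comp 0 h3
    have h5 := (HasDerivAt.fun_finsetProd h2).fun_pow 2
    unfold lineDeriv
    rw [h5.deriv]
    simp only [zero_smul, add_zero, smul_eq_mul]
    rw [Finset.mul_sum]
    refine Finset.sum_congr rfl fun c _ => ?_
    push_cast
    ring
  · intro a N hN ha
    have hsq : 0 < Real.sqrt N := Real.sqrt_pos.mpr hN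
    have hN2 : Real.sqrt N ^ 2 = N := Real.sq_sqrt hN.le
    set a' : C → ℝ := fun c => a c / Real.sqrt N with ha'
    have ha1 : ∑ c, a' c ^ 2 ≤ 1 := by
      simp only [ha', div_pow, hN2]
      rw [← Finset.sum_div, div_le_one hN]
      exact ha
    have ha2 : ∑ c, (-a' c) ^ 2 ≤ 1 := by simpa using ha1
    have e1 : ∀ x : C → ℝ, (∑ c, a c * x c) ^ 4 = N ^ 2 * (∑ c, a' c * x c) ^ 4 := by
      intro x
      have : ∑ c, a c * x c = Real.sqrt N * ∑ c, a' c * x c := by
        rw [Finset.mul_sum]
        refine Finset.sum_congr rfl fun c _ => ?_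
        simp only [ha']
        field_simp
      rw [this, mul_pow, show (4 : ℕ) = 2 * 2 from rfl, pow_mul, hN2]
    have i1 := hint (fun x => Real.exp (∑ c, a' c * x c)) (by fun_prop)
    have i2 := hint (fun x => Real.exp (∑ c, (-a' c) * x c)) (by fun_prop)
    calc ∫ x : C → ℝ, (∑ c, a c * x c) ^ 4 * (∏ c, b (x c)) ^ 2
        ≤ ∫ x : C → ℝ, (24 * N ^ 2) * (Real.exp (∑ c, a' c * x c) * (∏ c, b (x c)) ^ 2 +
            Real.exp (∑ c, (-a' c) * x c) * (∏ c, b (x c)) ^ 2) := by
          refine integral_mono (hint _ (by fun_prop)) ((i1.add i2).const_mul _) fun x => ?_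
          simp only
          rw [e1]
          have h3 := pow_four_le (∑ c, a' c * x c)
          have h4 : ∑ c, (-a' c) * x c = -∑ c, a' c * x c := by
            rw [← Finset.sum_neg_distrib]
            exact Finset.sum_congr rfl fun c _ => by ring
          rw [h4]
          have h5 : 0 ≤ N ^ 2 * (∏ c, b (x c)) ^ 2 := by positivity
          nlinarith
      _ ≤ 100 * N ^ 2 := by
          rw [integral_const_mul, integral_add i1 i2]
          have := hmgf a' ha1
          have := hmgf (fun c => -a' c) ha2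
          nlinarith [sq_nonneg N]

end Pool.Agent.Lib.MP_ed68f3_an
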