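import Mathlib
import Pool.Agent.Lib.MP_ed68f3_an.Density

/-!
Averaged derivatives of Lipschitz maps against the product density.
-/

set_option autoImplicit false

namespace Pool.Agent.Lib.MP_ed68f3_an

open Finset MeasureTheory

variable {C : Type} [Fintype C] {M : ℝ} {X : Type} [NormedAddCommGroup X] [NormedSpace ℝ X]

namespace Dens

variable (D : Dens C M)

theorem compP : HasCompactSupport D.P := compact_of_bound_pi D.suppP

theorem int_sq (g : (C → ℝ) → ℝ) (hg : Continuous g) :
    Integrable (fun x => g x * D.P x ^ 2) := by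
  refine Continuous.integrable_of_hasCompactSupport (hg.mul (D.contP.pow 2)) ?_
  refine compact_of_bound_pi fun x hx => D.suppP x ?_
  intro h; apply hx; simp [h]

theorem int_P : Integrable (fun x => D.P x ^ 2) := by
  simpa using D.int_sq (fun _ => 1) continuous_const

theorem int_R (c : C) : Integrable (fun x => D.R c x ^ 2) := by
  refine Continuous.integrable_of_hasCompactSupport ((D.contR c).pow 2) ?_
  refine (D.suppR c).mono ?_
  intro x hx
  simpa using hx

theorem int_smul (F : (C → ℝ) → X) (hF : Continuous F) (c : C) :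
    Integrable (fun x => (D.P x * D.R c x) • F x) := by
  refine Continuous.integrable_of_hasCompactSupport ((D.contP.mul (D.contR c)).smul hF) ?_
  refine compact_of_bound_pi fun x hx => D.suppP x ?_
  intro h; apply hx; simp [h]

/-- The averaged directional derivative. -/
noncomputable def S (F : (C → ℝ) → X) (c : C) : X := ∫ x, (D.P x * D.R c x) • F x

theorem apply_S [CompleteSpace X] (F : (C → ℝ) → X) (hF : Continuous F) (c : C)
    (f : X →L[ℝ] ℝ) : f (D.S F c) = ∫ x, (D.P x * D.R c x) * f (F x) := by
  unfold S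
  rw [← ContinuousLinearMap.integral_comp_comm f (D.int_smul F hF c)]
  simp

theorem apply_sum_S [CompleteSpace X] (F : (C → ℝ) → X) {K : NNReal} (hF : LipschitzWith K F)
    (t : C → ℝ) (f : X →L[ℝ] ℝ) :
    f (∑ c, t c • D.S F c) = ∫ x, lineDeriv ℝ (fun y => f (F y)) x t * D.P x ^ 2 := by
  rw [← D.ibp (fun y => f (F y)) _ (f.lipschitz.comp hF) t, map_sum]
  simp only [map_smul, smul_eq_mul, D.apply_S F hF.continuous, ← integral_const_mul]
  rw [← integral_finsetSum]
  · refine integral_congr_ae (Filter.Eventually.of_forall fun x => ?_)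
    simp only [Finset.sum_mul, mul_assoc]
  · intro c _
    have := (D.int_smul (fun y => f (F y)) (f.continuous.comp hF.continuous) c).const_mul (t c)
    simpa using this

theorem norm_sum_S [CompleteSpace X] (F : (C → ℝ) → X) {K : NNReal} (hF : LipschitzWith K F)
    (t : C → ℝ) (B : ℝ) (hB : 0 ≤ B)
    (h : ∀ (x : C → ℝ) (s : ℝ), ‖F (x + s • t) - F x‖ ≤ B * |s|) :
    ‖∑ c, t c • D.S F c‖ ≤ B := by
  refine NormedSpace.norm_le_dual_bound ℝ _ hB fun f => ?_
  rw [D.apply_sum_S F hF t f]
  have hb : ∀ x, ‖lineDeriv ℝ (fun y => f (F y)) x t‖ ≤ B * ‖f‖ := by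
    intro x
    unfold lineDeriv
    refine norm_deriv_le_of_lip' (by positivity) (Filter.Eventually.of_forall fun s => ?_)
    simp only [zero_smul, add_zero, sub_zero]
    rw [← map_sub]
    calc ‖f (F (x + s • t) - F x)‖ ≤ ‖f‖ * ‖F (x + s • t) - F x‖ := f.le_opNorm _
      _ ≤ ‖f‖ * (B * |s|) := mul_le_mul_of_nonneg_left (h x s) (norm_nonneg _)
      _ = B * ‖f‖ * ‖s‖ := by rw [Real.norm_eq_abs]; ring
  calc ‖∫ x, lineDeriv ℝ (fun y => f (F y)) x t * D.P x ^ 2‖
      ≤ ∫ x, (B * ‖f‖) * D.P x ^ 2 := by
        refine norm_integral_le_of_norm_le (D.int_P.const_mul _)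
          (Filter.Eventually.of_forall fun x => ?_)
        rw [norm_mul, Real.norm_of_nonneg (sq_nonneg (D.P x))]
        exact mul_le_mul_of_nonneg_right (hb x) (sq_nonneg _)
    _ = B * ‖f‖ := by rw [integral_const_mul, D.intP, mul_one]

end Dens

/-- The linear map sending coordinates to the combination of a family of vectors. -/
noncomputable def comb (v : C → X) : (C → ℝ) →L[ℝ] X :=
  ∑ c, (ContinuousLinearMap.proj c : (C → ℝ) →L[ℝ] ℝ).smulRight (v c)

theorem comb_apply (v : C → X) (t : C → ℝ) : comb v t = ∑ c, t c • v c := by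
  simp [comb]

theorem comb_single [DecidableEq C] (v : C → X) (c : C) (a : ℝ) :
    comb v (Pi.single c a) = a • v c := by
  rw [comb_apply, Finset.sum_eq_single c]
  · simp
  · intro b _ hb; simp [hb]
  · simp

theorem lip_affine (x0 : X) (v : C → X) :
    LipschitzWith ‖comb v‖₊ (fun x => x0 + comb v x) := by
  have := (LipschitzWith.const x0).add (comb v).lipschitz
  simpa using this

namespace Dens

variable (D : Dens C M)

theorem S_affine [CompleteSpace X] (x0 : X) (v : C → X) (c : C) :
    D.S (fun x => x0 + comb v x) c = v c := by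
  classical
  refine (SeparatingDual.eq_iff_forall_dual_eq (R := ℝ)).mpr fun f => ?_
  have h1 := D.apply_sum_S _ (lip_affine x0 v) (Pi.single c 1) f
  rw [← comb_apply, comb_single, one_smul] at h1
  rw [h1]
  have h2 : ∀ x, lineDeriv ℝ (fun y => f (x0 + comb v y)) x (Pi.single c 1) = f (v c) := by
    intro x
    unfold lineDeriv
    have : (fun s : ℝ => f (x0 + comb v (x + s • Pi.single c 1))) =
        fun s : ℝ => f (x0 + comb v x) + s * f (v c) := by
      funext s
      rw [map_add (comb v), map_smul, comb_single, one_smul, ← add_assoc, map_add f, map_smul,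
        smul_eq_mul]
    rw [this]
    simp
  simp only [h2]
  rw [integral_const_mul, D.intP, mul_one]

theorem norm_S_sub (F F' : (C → ℝ) → X) (hF : Continuous F) (hF' : Continuous F') (c : C)
    (W : (C → ℝ) → ℝ) (hW : Continuous W) (L z B : ℝ) (hL : 0 ≤ L) (hz : 0 < z)
    (h : ∀ x : C → ℝ, (∀ c, |x c| ≤ 1) → ‖F x - F' x‖ ≤ L * W x)
    (hB : ∫ x, W x ^ 2 * D.P x ^ 2 ≤ B * z ^ 2) :
    ‖D.S F c - D.S F' c‖ ≤ L * z * (M + B) := by
  unfold S
  rw [← integral_sub (D.int_smul F hF c) (D.int_smul F' hF' c)]
  have i1 := (D.int_R c).const_mul (L * z)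
  have i2 := (D.int_sq (fun x => W x ^ 2) (hW.pow 2)).const_mul (L / z)
  calc ‖∫ x, ((D.P x * D.R c x) • F x - (D.P x * D.R c x) • F' x)‖
      ≤ ∫ x, ((L * z) * D.R c x ^ 2 + (L / z) * (W x ^ 2 * D.P x ^ 2)) := by
        refine norm_integral_le_of_norm_le (i1.add i2)
          (Filter.Eventually.of_forall fun x => ?_)
        rw [← smul_sub, norm_smul]
        by_cases hx : D.P x = 0
        · simp only [hx, zero_mul, norm_zero]
          positivity
        · have h1 := h x (D.suppP x hx)
          have h2 : ‖D.P x * D.R c x‖ * ‖F x - F' x‖ ≤ ‖D.P x * D.R c x‖ * (L * |W x|) := by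
            refine mul_le_mul_of_nonneg_left (h1.trans ?_) (norm_nonneg _)
            exact mul_le_mul_of_nonneg_left (le_abs_self _) hL
          refine h2.trans ?_
          rw [Real.norm_eq_abs, abs_mul]
          have e1 : L * z * D.R c x ^ 2 + L / z * (W x ^ 2 * D.P x ^ 2) =
              (L / z) * ((z * |D.R c x|) ^ 2 + (|W x| * |D.P x|) ^ 2) := by
            simp only [mul_pow, sq_abs]
            field_simp
          have e2 : |D.P x| * |D.R c x| * (L * |W x|) =
              (L / z) * ((z * |D.R c x|) * (|W x| * |D.P x|)) := by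
            field_simp
          rw [e1, e2]
          refine mul_le_mul_of_nonneg_left ?_ (by positivity)
          have h3 : 0 ≤ (z * |D.R c x|) * (|W x| * |D.P x|) := by positivity
          nlinarith [sq_nonneg (z * |D.R c x| - |W x| * |D.P x|)]
    _ ≤ L * z * (M + B) := by
        rw [integral_add i1 i2, integral_const_mul, integral_const_mul, D.intR]
        have h4 : L / z * ∫ x, W x ^ 2 * D.P x ^ 2 ≤ L / z * (B * z ^ 2) :=
          mul_le_mul_of_nonneg_left hB (by positivity)
        have h5 : L / z * (B * z ^ 2) = L * z * B := by field_simp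
        linarith

theorem abs_sum_dual [CompleteSpace X] {I : Type} [Fintype I] (F : (C → ℝ) → X)
    (hF : Continuous F) (cc : I → C) (f : I → X →L[ℝ] ℝ) (A q : ℝ) (hA : 0 < A) (hq : 0 < q)
    (hcard : (Fintype.card I : ℝ) = q ^ 2)
    (h : ∀ (s : I → ℝ) (x : C → ℝ), (∑ j, s j * f j (F x)) ^ 2 ≤ A ^ 2 * ∑ j, s j ^ 2) :
    |∑ j, f j (D.S F (cc j))| ≤ A * q * (1 + M) := by
  simp only [D.apply_S F hF]
  have i0 : ∀ j ∈ (Finset.univ : Finset I),
      Integrable (fun x => (D.P x * D.R (cc j) x) * f j (F x)) := by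
    intro j _
    simpa using D.int_smul (fun y => f j (F y)) ((f j).continuous.comp hF) (cc j)
  rw [← integral_finsetSum _ i0, ← Real.norm_eq_abs]
  have i1 := D.int_P.const_mul (A * q)
  have i2 : Integrable (fun x => ∑ j, D.R (cc j) x ^ 2) :=
    integrable_finsetSum _ fun j _ => D.int_R (cc j)
  calc ‖∫ x, ∑ j, (D.P x * D.R (cc j) x) * f j (F x)‖
      ≤ ∫ x, ((A * q) * D.P x ^ 2 + (A / q) * ∑ j, D.R (cc j) x ^ 2) := by
        refine norm_integral_le_of_norm_le (i1.add (i2.const_mul _))
          (Filter.Eventually.of_forall fun x => ?_)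
        have h1 := h (fun j => D.R (cc j) x) x
        have e0 : ∑ j, (D.P x * D.R (cc j) x) * f j (F x) =
            D.P x * ∑ j, D.R (cc j) x * f j (F x) := by
          rw [Finset.mul_sum]
          exact Finset.sum_congr rfl fun j _ => by ring
        rw [e0, Real.norm_eq_abs, abs_mul]
        set a := ∑ j, D.R (cc j) x * f j (F x)
        set ρ := ∑ j, D.R (cc j) x ^ 2
        have h2 : |a| ^ 2 ≤ A ^ 2 * ρ := by rw [sq_abs]; exact h1
        have e1 : A * q * D.P x ^ 2 + A / q * ρ =
            (1 / (A * q)) * ((A * q * |D.P x|) ^ 2 + A ^ 2 * ρ) := by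
          simp only [mul_pow, sq_abs]
          field_simp
        have e2 : |D.P x| * |a| = (1 / (A * q)) * ((A * q * |D.P x|) * |a|) := by
          field_simp
        rw [e1, e2]
        refine mul_le_mul_of_nonneg_left ?_ (by positivity)
        have h3 : 0 ≤ (A * q * |D.P x|) * |a| := by positivity
        nlinarith [sq_nonneg (A * q * |D.P x| - |a|)]
    _ = A * q * (1 + M) := by
        rw [integral_add i1 (i2.const_mul _), integral_const_mul, integral_const_mul, D.intP,
          integral_finsetSum _ fun j _ => D.int_R (cc j)]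
        simp only [D.intR, Finset.sum_const, Finset.card_univ, nsmul_eq_mul, hcard]
        field_simp

end Dens

end Pool.Agent.Lib.MP_ed68f3_an
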