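import Mathlib
import Pool.Agent.Lib.MP_ed68f3_an.Average

/-!
An Enflo type trace system whose blocks are in good Euclidean position prevents the identity from
being approximated by Lipschitz maps with relatively compact range.
-/

set_option autoImplicit false

namespace Pool.Agent.Lib.MP_ed68f3_an

open Finset MeasureTheory

variable {X : Type} [NormedAddCommGroup X] [NormedSpace ℝ X]

/-- An Enflo type system with blocks in good Euclidean position. -/
structure Enflo (X : Type) [NormedAddCommGroup X] [NormedSpace ℝ X] (I : ℕ → Type)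
    [∀ k, Fintype (I k)] where
  e : ∀ k, I k → X
  A : ∀ k, I k → X →L[ℝ] ℝ
  nu : ℕ → ℝ
  Del : ℕ → ℝ
  N : ℕ → X → ℝ
  nu_pos : ∀ k, 0 < nu k
  card_eq : ∀ k, (Fintype.card (I k) : ℝ) = nu k ^ 4
  A_e : ∀ k j, A k j (e k j) = 1
  A_le : ∀ k j x, |A k j x| ≤ 3 * ‖x‖
  Del_nonneg : ∀ k, 0 ≤ Del k
  Del_lim : Filter.Tendsto Del Filter.atTop (nhds 0)
  trace : ∀ k (L : ℝ) (y : I k → X) (y' : I (k + 1) → X), 0 ≤ L →
    (∀ (a : I k → ℝ) (b : I (k + 1) → ℝ), ‖∑ j, a j • y j + ∑ j, b j • y' j‖ ≤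
      L * ‖∑ j, a j • e k j + ∑ j, b j • e (k + 1) j‖) →
    |(∑ j, A (k + 1) j (y' j)) / nu (k + 1) ^ 4 - (∑ j, A k j (y j)) / nu k ^ 4| ≤
      L * (Del k - Del (k + 1))
  dual : ∀ k (s : I k → ℝ) x, (∑ j, s j * A k j x) ^ 2 ≤ (2 * N k x / nu k) ^ 2 * ∑ j, s j ^ 2
  small : ∀ K : Set X, IsCompact K → ∀ η : ℝ, 0 < η → ∀ k1, ∃ k, k1 ≤ k ∧ ∀ x ∈ K, |N k x| ≤ η
  four : ∀ k, ∃ (G : Type) (_ : Fintype G) (a : G → I k → ℝ),
    (Fintype.card G : ℝ) ≤ 5 * nu k ^ 4 ∧ (∀ g j, |a g j| ≤ 1) ∧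
    ∀ x : I k → ℝ, ‖∑ j, x j • e k j‖ ^ 4 ≤ 8 * ∑ g, (∑ j, a g j * x j) ^ 4

theorem moment_bound {I : ℕ → Type} [∀ k, Fintype (I k)] (E : Enflo X I) {C : Type} [Fintype C]
    {M : ℝ} (D : Dens C M) (k : ℕ) (cc : I k → C) (hcc : Function.Injective cc) (z : ℝ)
    (hz : 0 < z) :
    ∫ x : C → ℝ, (2 * z + ‖(z / E.nu k ^ 3) • ∑ j, x (cc j) • E.e k j‖) ^ 2 * D.P x ^ 2 ≤
      8010 * z ^ 2 := by
  classical
  obtain ⟨G, _, a, hG, ha, h4⟩ := E.four k
  have hnu := E.nu_pos k
  set nu := E.nu k with hnudef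
  let a' : G → C → ℝ := fun g => Function.extend cc (a g) 0
  have hsum : ∀ (g : G) (φ : C → ℝ → ℝ), (∀ c, φ c 0 = 0) →
      ∑ c, φ c (a' g c) = ∑ j, φ (cc j) (a g j) := by
    intro g φ hφ
    symm
    refine Finset.sum_of_injOn cc hcc.injOn (by simp) ?_ ?_
    · intro c _ hc
      have : a' g c = 0 := by
        simp only [a']
        rw [Function.extend_apply']
        · rfl
        · rintro ⟨j, rfl⟩; exact hc (by simp)
      rw [this, hφ]
    · intro j _
      simp only [a', hcc.extend_apply]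
  have hmom : ∀ g, ∫ x : C → ℝ, (∑ j, a g j * x (cc j)) ^ 4 * D.P x ^ 2 ≤
      100 * (nu ^ 4) ^ 2 := by
    intro g
    have h1 : ∑ c, a' g c ^ 2 ≤ nu ^ 4 := by
      rw [hsum g (fun _ t => t ^ 2) (by simp), ← E.card_eq k]
      calc ∑ j, a g j ^ 2 ≤ ∑ _j : I k, (1 : ℝ) := Finset.sum_le_sum fun j _ => by
            have := abs_le.mp (ha g j)
            nlinarith [this.1, this.2]
        _ = _ := by simp
    have h2 := D.mom4 (a' g) (nu ^ 4) (by positivity) h1
    refine le_trans (le_of_eq ?_) h2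
    refine integral_congr_ae (Filter.Eventually.of_forall fun x => ?_)
    simp only
    rw [hsum g (fun c t => t * x c) (by simp)]
  have i1 : ∀ g ∈ (Finset.univ : Finset G),
      Integrable (fun x : C → ℝ => (∑ j, a g j * x (cc j)) ^ 4 * D.P x ^ 2) :=
    fun g _ => D.int_sq _ (by fun_prop)
  have i2 := D.int_P.const_mul (10 * z ^ 2)
  have i3 := (integrable_finsetSum _ i1).const_mul (16 * z ^ 2 / nu ^ 12)
  calc ∫ x : C → ℝ, (2 * z + ‖(z / nu ^ 3) • ∑ j, x (cc j) • E.e k j‖) ^ 2 * D.P x ^ 2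
      ≤ ∫ x : C → ℝ, (10 * z ^ 2 * D.P x ^ 2 +
          16 * z ^ 2 / nu ^ 12 * ∑ g, (∑ j, a g j * x (cc j)) ^ 4 * D.P x ^ 2) := by
        refine integral_mono (D.int_sq _ (by fun_prop)) (i2.add i3) fun x => ?_
        simp only
        rw [← Finset.sum_mul, ← mul_assoc, ← add_mul]
        refine mul_le_mul_of_nonneg_right ?_ (sq_nonneg _)
        have h5 := h4 (fun j => x (cc j))
        rw [norm_smul, Real.norm_of_nonneg (by positivity)]
        set w := ‖∑ j, x (cc j) • E.e k j‖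
        set Q := ∑ g, (∑ j, a g j * x (cc j)) ^ 4
        have e1 : (2 * z + z / nu ^ 3 * w) ^ 2 = z ^ 2 * (2 + w / nu ^ 3) ^ 2 := by
          field_simp
        have e2 : 10 * z ^ 2 + 16 * z ^ 2 / nu ^ 12 * Q =
            z ^ 2 * (10 + 2 * (8 * Q / nu ^ 12)) := by
          field_simp
          ring
        rw [e1, e2]
        refine mul_le_mul_of_nonneg_left ?_ (sq_nonneg _)
        have h6 : (w / nu ^ 3) ^ 4 ≤ 8 * Q / nu ^ 12 := by
          rw [div_pow, ← pow_mul]
          exact div_le_div_of_nonneg_right h5 (by positivity)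
        set s := w / nu ^ 3
        nlinarith [sq_nonneg (s - 2), sq_nonneg (s ^ 2 - 1)]
    _ ≤ 8010 * z ^ 2 := by
        rw [integral_add i2 i3, integral_const_mul, integral_const_mul, D.intP,
          integral_finsetSum _ i1]
        have h7 : ∑ g, ∫ x : C → ℝ, (∑ j, a g j * x (cc j)) ^ 4 * D.P x ^ 2 ≤
            5 * nu ^ 4 * (100 * (nu ^ 4) ^ 2) := by
          calc _ ≤ ∑ _g : G, 100 * (nu ^ 4) ^ 2 := Finset.sum_le_sum fun g _ => hmom g
            _ = Fintype.card G * (100 * (nu ^ 4) ^ 2) := by simp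
            _ ≤ _ := mul_le_mul_of_nonneg_right hG (by positivity)
        have h8 : 16 * z ^ 2 / nu ^ 12 * (5 * nu ^ 4 * (100 * (nu ^ 4) ^ 2)) = 8000 * z ^ 2 := by
          field_simp
          ring
        have h9 := mul_le_mul_of_nonneg_left h7
          (show 0 ≤ 16 * z ^ 2 / nu ^ 12 by positivity)
        linarith

theorem core [CompleteSpace X] {I : ℕ → Type} [∀ k, Fintype (I k)] (E : Enflo X I) (L : NNReal) :
    ∃ (k0 : ℕ) (ε : ℝ), 0 < ε ∧ ∀ (K : Set X) (r : X → X) (x0 : X) (z : I k0 → X) (ρ : ℝ),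
      IsCompact K → LipschitzWith L r → (∀ x, r x ∈ K) → 0 < ρ →
      (∀ j, ‖z j - E.e k0 j‖ ≤ ε) →
      (∀ t : I k0 → ℝ, (∀ j, |t j| ≤ 1) →
        ‖r (x0 + ∑ j, t j • ρ • z j) - (x0 + ∑ j, t j • ρ • z j)‖ ≤ ε * ρ) → False := by
  classical
  obtain ⟨M, hM, hD⟩ := exists_dens
  have hL : (0 : ℝ) ≤ L := L.coe_nonneg
  obtain ⟨k0, hk0⟩ : ∃ k0, (L : ℝ) * E.Del k0 ≤ 1 / 4 := by
    have h1 : Filter.Tendsto (fun k => (L : ℝ) * E.Del k) Filter.atTop (nhds 0) := by
      simpa using E.Del_lim.const_mul (L : ℝ)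
    exact (h1.eventually (ge_mem_nhds (by norm_num : (0 : ℝ) < 1 / 4))).exists
  set ε : ℝ := 1 / (12 * ((L : ℝ) + 1) * (1 + (M + 8010))) with hε
  have hεpos : 0 < ε := by positivity
  refine ⟨k0, ε, hεpos, ?_⟩
  intro K r x0 z ρ hK hr hrK hρ hz hfix
  set ζ : ℝ := ε * ρ with hζ
  have hζpos : 0 < ζ := by positivity
  set η : ℝ := ζ / (8 * (1 + M)) with hη
  have hηpos : 0 < η := by positivity
  obtain ⟨k, hk, hsmall⟩ := E.small K hK η hηpos k0
  have hnu := E.nu_pos k
  let C : Type := I k0 ⊕ ((Σ m : Fin (k + 1), I m) ⊕ I k)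
  obtain ⟨D⟩ := hD C
  set Sg : ℝ := ∑ c : (Σ m : Fin (k + 1), I m), ‖E.e c.1 c.2‖ with hSg
  have hSg0 : 0 ≤ Sg := Finset.sum_nonneg fun c _ => norm_nonneg _
  set κ : ℝ := ζ / (1 + Sg) with hκ
  have hκpos : 0 < κ := by positivity
  set σ : ℝ := ζ / E.nu k ^ 3 with hσ
  have hσpos : 0 < σ := by positivity
  let v : C → X := Sum.elim (fun j => ρ • z j)
    (Sum.elim (fun c => κ • E.e c.1 c.2) (fun j => σ • E.e k j))
  let u : C → X := Sum.elim (fun j => ρ • z j) (fun _ => 0)
  let F : (C → ℝ) → X := fun x => r (x0 + comb v x)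
  have hF : LipschitzWith (L * ‖comb v‖₊) F := hr.comp (lip_affine x0 v)
  let T : (C → ℝ) →L[ℝ] X := comb (D.S F)
  have hT : ∀ t, ‖T t‖ ≤ L * ‖comb v t‖ := by
    intro t
    simp only [T]
    rw [comb_apply]
    refine D.norm_sum_S F hF t _ (by positivity) fun x s => ?_
    have := hr.norm_sub_le (x0 + comb v (x + s • t)) (x0 + comb v x)
    rw [add_sub_add_left_eq_sub, ← map_sub, add_sub_cancel_left, map_smul, norm_smul,
      Real.norm_eq_abs] at this
    simp only [F]
    linarith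
  -- the vectors
  let mid : ∀ m, m < k + 1 → I m → (C → ℝ) := fun m hm j =>
    Pi.single (Sum.inr (Sum.inl ⟨⟨m, hm⟩, j⟩)) κ⁻¹
  have hmid : ∀ m hm j, comb v (mid m hm j) = E.e m j := by
    intro m hm j
    simp only [mid]
    rw [comb_single]
    simp only [v, Sum.elim_inr, Sum.elim_inl]
    rw [smul_smul, inv_mul_cancel₀ hκpos.ne', one_smul]
  let b : ℕ → ℝ := fun m =>
    if h : m < k + 1 then (∑ j, E.A m j (T (mid m h j))) / E.nu m ^ 4 else 0
  -- step 2
  have step2 : ∀ m, k0 ≤ m → m ≤ k → |b m - b k0| ≤ L * (E.Del k0 - E.Del m) := by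
    intro m hm
    induction m, hm using Nat.le_induction with
    | base => intro _; simp
    | succ m hm ih =>
      intro hmk
      have h1 := ih (by omega)
      have hm1 : m < k + 1 := by omega
      have hm2 : m + 1 < k + 1 := by omega
      have h2 := E.trace m L (fun j => T (mid m hm1 j)) (fun j => T (mid (m + 1) hm2 j)) hL
        (fun a c => by
          have := hT (∑ j, a j • mid m hm1 j + ∑ j, c j • mid (m + 1) hm2 j)
          simp only [map_add, map_sum, map_smul, hmid] at this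
          exact this)
      have e1 : b (m + 1) = (∑ j, E.A (m + 1) j (T (mid (m + 1) hm2 j))) / E.nu (m + 1) ^ 4 := by
        simp only [b, dif_pos hm2]
      have e2 : b m = (∑ j, E.A m j (T (mid m hm1 j))) / E.nu m ^ 4 := by
        simp only [b, dif_pos hm1]
      rw [← e1, ← e2] at h2
      calc |b (m + 1) - b k0| = |(b (m + 1) - b m) + (b m - b k0)| := by ring_nf
        _ ≤ |b (m + 1) - b m| + |b m - b k0| := abs_add_le _ _
        _ ≤ _ := by linarith
  -- step 3
  have step3 : |b k| ≤ 1 / 4 := by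
    have hkk : k < k + 1 := Nat.lt_succ_self k
    have e1 : b k = (∑ j, E.A k j (T (mid k hkk j))) / E.nu k ^ 4 := by
      simp only [b, dif_pos hkk]
    have e2 : ∀ j, T (mid k hkk j) = σ⁻¹ • D.S F (Sum.inr (Sum.inr j)) := by
      intro j
      have h1 := hT (mid k hkk j - Pi.single (Sum.inr (Sum.inr j)) σ⁻¹)
      rw [map_sub, map_sub, hmid, comb_single v] at h1
      simp only [v, Sum.elim_inr] at h1
      rw [smul_smul, inv_mul_cancel₀ hσpos.ne', one_smul, sub_self, norm_zero, mul_zero,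
        norm_le_zero_iff, sub_eq_zero] at h1
      rw [h1]
      simp only [T]
      rw [comb_single]
    have h3 := D.abs_sum_dual F hF.continuous (fun j : I k => (Sum.inr (Sum.inr j) : C))
      (E.A k) (2 * η / E.nu k) (E.nu k ^ 2) (by positivity) (by positivity)
      (by rw [E.card_eq]; ring) (fun s x => by
        refine (E.dual k s (F x)).trans ?_
        refine mul_le_mul_of_nonneg_right ?_ (Finset.sum_nonneg fun j _ => sq_nonneg _)
        have h4 := hsmall (F x) (hrK _)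
        rw [div_pow, div_pow]
        refine div_le_div_of_nonneg_right ?_ (sq_nonneg _)
        have := abs_le.mp h4
        nlinarith [this.1, this.2])
    rw [e1]
    simp only [e2, map_smul, smul_eq_mul]
    rw [← Finset.mul_sum, abs_div, abs_mul, abs_of_pos (inv_pos.mpr hσpos),
      abs_of_pos (pow_pos hnu 4), div_le_iff₀ (pow_pos hnu 4)]
    calc σ⁻¹ * |∑ j, E.A k j (D.S F (Sum.inr (Sum.inr j)))|
        ≤ σ⁻¹ * (2 * η / E.nu k * E.nu k ^ 2 * (1 + M)) :=
          mul_le_mul_of_nonneg_left h3 (by positivity)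
      _ = 1 / 4 * E.nu k ^ 4 := by
          rw [hσ, hη]
          field_simp
          ring
  -- step 1
  have step1 : |b k0 - 1| ≤ 1 / 4 := by
    have hkk : k0 < k + 1 := by omega
    have hnu0 := E.nu_pos k0
    have e1 : b k0 = (∑ j, E.A k0 j (T (mid k0 hkk j))) / E.nu k0 ^ 4 := by
      simp only [b, dif_pos hkk]
    have hcombu : ∀ x : C → ℝ, comb u x = ∑ j, x (Sum.inl j) • ρ • z j := by
      intro x
      rw [comb_apply, Fintype.sum_sum_type]
      simp [u]
    have hcombv : ∀ x : C → ℝ, comb v x = comb u x +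
        (∑ c : (Σ m : Fin (k + 1), I m), x (Sum.inr (Sum.inl c)) • κ • E.e c.1 c.2 +
          σ • ∑ j, x (Sum.inr (Sum.inr j)) • E.e k j) := by
      intro x
      rw [hcombu, comb_apply, Fintype.sum_sum_type, Fintype.sum_sum_type, Finset.smul_sum]
      simp only [v, Sum.elim_inl, Sum.elim_inr]
      congr 2
      exact Finset.sum_congr rfl fun j _ => smul_comm _ _ _
    have hclose : ∀ j, ‖D.S F (Sum.inl j) - ρ • z j‖ ≤ (L + 1) * ζ * (M + 8010) := by
      intro j
      have h1 := D.S_affine x0 u (Sum.inl j)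
      simp only [u, Sum.elim_inl] at h1
      rw [← h1]
      refine D.norm_S_sub F _ hF.continuous (lip_affine x0 u).continuous _
        (fun x => 2 * ζ + ‖σ • ∑ j, x (Sum.inr (Sum.inr j)) • E.e k j‖) (by fun_prop)
        (L + 1) ζ 8010 (by positivity) hζpos ?_ ?_
      · intro x hx
        have h2 := hfix (fun j => x (Sum.inl j)) (fun j => hx _)
        rw [← hcombu] at h2
        have h3 := hr.norm_sub_le (x0 + comb v x) (x0 + comb u x)
        rw [add_sub_add_left_eq_sub, hcombv x, add_sub_cancel_left] at h3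
        have h4 : ‖∑ c : (Σ m : Fin (k + 1), I m), x (Sum.inr (Sum.inl c)) • κ • E.e c.1 c.2‖
            ≤ ζ := by
          calc _ ≤ ∑ c : (Σ m : Fin (k + 1), I m), ‖x (Sum.inr (Sum.inl c)) • κ • E.e c.1 c.2‖ :=
                norm_sum_le _ _
            _ ≤ ∑ c : (Σ m : Fin (k + 1), I m), κ * ‖E.e c.1 c.2‖ := by
                refine Finset.sum_le_sum fun c _ => ?_
                rw [norm_smul, norm_smul, Real.norm_eq_abs, Real.norm_of_nonneg hκpos.le]
                exact mul_le_of_le_one_left (by positivity) (hx _)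
            _ = κ * Sg := by rw [← Finset.mul_sum]
            _ ≤ ζ := by
                rw [hκ, div_mul_eq_mul_div, div_le_iff₀ (by positivity)]
                nlinarith
        set w := ‖σ • ∑ j, x (Sum.inr (Sum.inr j)) • E.e k j‖ with hw
        have hw0 : 0 ≤ w := norm_nonneg _
        have h5 := (norm_add_le _ _).trans (add_le_add h4 (le_of_eq hw.symm))
        have h6 := h3.trans (mul_le_mul_of_nonneg_left h5 hL)
        have h7 : F x - (x0 + comb u x) = (r (x0 + comb v x) - r (x0 + comb u x)) +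
            (r (x0 + comb u x) - (x0 + comb u x)) := by
          simp only [F]; abel
        rw [hcombv x] at h7
        calc ‖F x - (x0 + comb u x)‖ ≤ _ := by rw [h7]; exact norm_add_le _ _
          _ ≤ L * (ζ + w) + ζ := add_le_add h6 h2
          _ ≤ (L + 1) * (2 * ζ + w) := by nlinarith
      · exact moment_bound E D k (fun j : I k => (Sum.inr (Sum.inr j) : C))
          (fun a b h => Sum.inr.inj (Sum.inr.inj h)) ζ hζpos
    have hj : ∀ j, |E.A k0 j (T (mid k0 hkk j)) - 1| ≤ 1 / 4 := by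
      intro j
      have h1 := hT (mid k0 hkk j - Pi.single (Sum.inl j) ρ⁻¹)
      rw [map_sub, map_sub, hmid, comb_single v] at h1
      simp only [v, Sum.elim_inl] at h1
      rw [smul_smul, inv_mul_cancel₀ hρ.ne', one_smul, norm_sub_rev (E.e k0 j)] at h1
      have h2 : T (Pi.single (Sum.inl j) ρ⁻¹) = ρ⁻¹ • D.S F (Sum.inl j) := by
        simp only [T]
        rw [comb_single]
      have h3 : ‖ρ⁻¹ • D.S F (Sum.inl j) - z j‖ ≤ (L + 1) * ε * (M + 8010) := by
        have : ρ⁻¹ • D.S F (Sum.inl j) - z j = ρ⁻¹ • (D.S F (Sum.inl j) - ρ • z j) := by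
          rw [smul_sub, smul_smul, inv_mul_cancel₀ hρ.ne', one_smul]
        rw [this, norm_smul, Real.norm_of_nonneg (inv_pos.mpr hρ).le]
        calc ρ⁻¹ * ‖D.S F (Sum.inl j) - ρ • z j‖ ≤ ρ⁻¹ * ((L + 1) * ζ * (M + 8010)) :=
              mul_le_mul_of_nonneg_left (hclose j) (by positivity)
          _ = _ := by rw [hζ]; field_simp
      rw [h2] at h1
      have h4 : T (mid k0 hkk j) - E.e k0 j = (T (mid k0 hkk j) - ρ⁻¹ • D.S F (Sum.inl j)) +
          (ρ⁻¹ • D.S F (Sum.inl j) - z j) + (z j - E.e k0 j) := by abel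
      have h5 : ‖T (mid k0 hkk j) - E.e k0 j‖ ≤ L * ε + (L + 1) * ε * (M + 8010) + ε := by
        rw [h4]
        refine (norm_add₃_le).trans (add_le_add (add_le_add ?_ h3) (hz j))
        exact h1.trans (mul_le_mul_of_nonneg_left (hz j) hL)
      have h6 : (L : ℝ) * ε + (L + 1) * ε * (M + 8010) + ε = 1 / 12 := by
        rw [hε]; field_simp; ring
      have h7 := E.A_le k0 j (T (mid k0 hkk j) - E.e k0 j)
      rw [map_sub, E.A_e] at h7
      linarith
    have e3 : b k0 - 1 = (∑ j, (E.A k0 j (T (mid k0 hkk j)) - 1)) / E.nu k0 ^ 4 := by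
      rw [e1, Finset.sum_sub_distrib, Finset.sum_const, Finset.card_univ, nsmul_eq_mul,
        E.card_eq]
      field_simp
    rw [e3, abs_div, abs_of_pos (pow_pos hnu0 4), div_le_iff₀ (pow_pos hnu0 4)]
    calc |∑ j, (E.A k0 j (T (mid k0 hkk j)) - 1)| ≤ ∑ j, |E.A k0 j (T (mid k0 hkk j)) - 1| :=
          Finset.abs_sum_le_sum_abs _ _
      _ ≤ ∑ _j : I k0, (1 / 4 : ℝ) := Finset.sum_le_sum fun j _ => hj j
      _ = 1 / 4 * E.nu k0 ^ 4 := by
          rw [Finset.sum_const, Finset.card_univ, nsmul_eq_mul, E.card_eq]; ring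
  have h2 := step2 k hk le_rfl
  have h3 := mul_nonneg hL (E.Del_nonneg k)
  have a1 := abs_le.mp step1
  have a2 := abs_le.mp h2
  have a3 := abs_le.mp step3
  nlinarith [a1.1, a1.2, a2.1, a2.2, a3.1, a3.2]

end Pool.Agent.Lib.MP_ed68f3_an
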