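import Mathlib

/-!
A derandomised fourth moment bound: independent mean zero bounded choices can be made so that
a finite family of sums has small total fourth power.
-/

set_option autoImplicit false

namespace Pool.Agent.Lib.MP_ed68f3_an

open Finset

theorem step_ineq (S R X : ℝ) (hR : 0 ≤ R) (hX : |X| ≤ 1) :
    (S + X) ^ 4 + 8 * (S + X) ^ 2 * R + 4 * R ^ 2 ≤
      S ^ 4 + 8 * S ^ 2 * (R + 1) + 4 * (R + 1) ^ 2 + (4 * S ^ 3 + 16 * R * S) * X := by
  have h1 : X ^ 2 ≤ 1 := by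
    have := abs_le.mp hX
    nlinarith [this.1, this.2]
  have h0 : 0 ≤ X ^ 2 := sq_nonneg X
  have h2 : X ^ 4 ≤ 1 := by nlinarith
  have h3 : 4 * S * X ^ 3 ≤ 2 * S ^ 2 * X ^ 2 + 2 * X ^ 4 := by
    nlinarith [sq_nonneg (S * X - X ^ 2)]
  have h4 : S ^ 2 * X ^ 2 ≤ S ^ 2 := by nlinarith [sq_nonneg S]
  have h5 : R * X ^ 2 ≤ R := by nlinarith
  nlinarith

theorem exists_choice_aux {I J L : Type*} [DecidableEq I] [Fintype J] [Fintype L] [Nonempty L]
    (X : J → I → L → ℝ) (h0 : ∀ j i, ∑ l, X j i l = 0) (hb : ∀ j i l, |X j i l| ≤ 1)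
    (t : Finset I) :
    ∀ S : J → ℝ, ∃ s : I → L, ∑ j, (S j + ∑ i ∈ t, X j i (s i)) ^ 4 ≤
      ∑ j, (S j ^ 4 + 8 * S j ^ 2 * (t.card : ℝ) + 4 * (t.card : ℝ) ^ 2) := by
  classical
  induction t using Finset.induction_on with
  | empty =>
    intro S
    exact ⟨fun _ => Classical.arbitrary L, by simp⟩
  | insert i t hi ih =>
    intro S
    set R : ℝ := (t.card : ℝ) with hRdef
    have hR : 0 ≤ R := Nat.cast_nonneg _
    have key : ∃ l : L, ∑ j, ((S j + X j i l) ^ 4 + 8 * (S j + X j i l) ^ 2 * R + 4 * R ^ 2) ≤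
        ∑ j, (S j ^ 4 + 8 * S j ^ 2 * (R + 1) + 4 * (R + 1) ^ 2) := by
      by_contra hcon
      push Not at hcon
      have hlt : ∑ _l : L, ∑ j, (S j ^ 4 + 8 * S j ^ 2 * (R + 1) + 4 * (R + 1) ^ 2) <
          ∑ l : L, ∑ j, ((S j + X j i l) ^ 4 + 8 * (S j + X j i l) ^ 2 * R + 4 * R ^ 2) :=
        Finset.sum_lt_sum_of_nonempty Finset.univ_nonempty (fun l _ => hcon l)
      have hle : ∑ l : L, ∑ j, ((S j + X j i l) ^ 4 + 8 * (S j + X j i l) ^ 2 * R + 4 * R ^ 2) ≤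
          ∑ l : L, ∑ j, (S j ^ 4 + 8 * S j ^ 2 * (R + 1) + 4 * (R + 1) ^ 2
            + (4 * S j ^ 3 + 16 * R * S j) * X j i l) :=
        Finset.sum_le_sum fun l _ => Finset.sum_le_sum fun j _ => step_ineq _ _ _ hR (hb j i l)
      have heq : ∑ l : L, ∑ j, (S j ^ 4 + 8 * S j ^ 2 * (R + 1) + 4 * (R + 1) ^ 2
            + (4 * S j ^ 3 + 16 * R * S j) * X j i l) =
          ∑ _l : L, ∑ j, (S j ^ 4 + 8 * S j ^ 2 * (R + 1) + 4 * (R + 1) ^ 2) := by
        simp only [Finset.sum_add_distrib]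
        rw [Finset.sum_comm (f := fun l j => (4 * S j ^ 3 + 16 * R * S j) * X j i l)]
        simp only [← Finset.mul_sum, h0, mul_zero, Finset.sum_const_zero, add_zero]
      linarith
    obtain ⟨l, hl⟩ := key
    obtain ⟨s, hs⟩ := ih (fun j => S j + X j i l)
    refine ⟨Function.update s i l, ?_⟩
    have hsum : ∀ j, S j + ∑ i' ∈ insert i t, X j i' (Function.update s i l i') =
        (S j + X j i l) + ∑ i' ∈ t, X j i' (s i') := by
      intro j
      rw [Finset.sum_insert hi, Function.update_self, add_assoc]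
      congr 2
      refine Finset.sum_congr rfl fun i' hi' => ?_
      rw [Function.update_of_ne (by rintro rfl; exact hi hi')]
    simp only [hsum]
    rw [Finset.card_insert_of_notMem hi]
    push_cast
    exact hs.trans hl

theorem exists_choice {I J L : Type*} [Fintype I] [Fintype J] [Fintype L] [Nonempty L]
    (X : J → I → L → ℝ) (h0 : ∀ j i, ∑ l, X j i l = 0) (hb : ∀ j i l, |X j i l| ≤ 1) :
    ∃ s : I → L, ∑ j, (∑ i, X j i (s i)) ^ 4 ≤
      4 * (Fintype.card J : ℝ) * (Fintype.card I : ℝ) ^ 2 := by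
  classical
  obtain ⟨s, hs⟩ := exists_choice_aux X h0 hb Finset.univ (fun _ => 0)
  refine ⟨s, ?_⟩
  simp only [zero_add] at hs
  refine hs.trans (le_of_eq ?_)
  simp
  ring

end Pool.Agent.Lib.MP_ed68f3_an
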