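import Mathlib
import Pool.Agent.Lib.MP_ed68f3_an.Greedy

/-!
A Davie type system of functions on finite sets, built from Walsh matrices and good choices.
-/

set_option autoImplicit false

namespace Pool.Agent.Lib.MP_ed68f3_an

open Finset

abbrev Idx (k : ℕ) : Type := Fin k → Bool

abbrev Pt (k : ℕ) : Type := Idx k × ZMod 3

theorem card_Idx (k : ℕ) : (Fintype.card (Idx k) : ℝ) = 2 ^ k := by
  simp [Idx]

theorem card_Pt (k : ℕ) : (Fintype.card (Pt k) : ℝ) = 3 * 2 ^ k := by
  simp [Pt, Idx, Fintype.card_prod, ZMod.card]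
  ring

/-- Walsh matrix entries. -/
def walsh {k : ℕ} (x u : Idx k) : ℝ := ∏ i, if (x i && u i) = true then (-1 : ℝ) else 1

theorem abs_walsh {k : ℕ} (x u : Idx k) : |walsh x u| = 1 := by
  unfold walsh
  rw [Finset.abs_prod]
  refine Finset.prod_eq_one fun i _ => ?_
  split_ifs <;> simp

theorem walsh_orth {k : ℕ} (x x' : Idx k) :
    ∑ u, walsh x u * walsh x' u = if x = x' then (2 : ℝ) ^ k else 0 := by
  have h1 : ∀ u : Idx k, walsh x u * walsh x' u =
      ∏ i, ((if (x i && u i) = true then (-1 : ℝ) else 1) *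
        (if (x' i && u i) = true then (-1 : ℝ) else 1)) := by
    intro u
    unfold walsh
    rw [Finset.prod_mul_distrib]
  simp only [h1]
  have h2 := Finset.prod_univ_sum (fun _ : Fin k => (Finset.univ : Finset Bool))
    (fun i b => ((if (x i && b) = true then (-1 : ℝ) else 1) *
        (if (x' i && b) = true then (-1 : ℝ) else 1)))
  rw [Fintype.piFinset_univ] at h2
  rw [← h2]
  have h3 : ∀ i, ∑ b : Bool, ((if (x i && b) = true then (-1 : ℝ) else 1) *
        (if (x' i && b) = true then (-1 : ℝ) else 1)) = if x i = x' i then 2 else 0 := by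
    intro i
    cases x i <;> cases x' i <;> norm_num
  simp only [h3]
  split_ifs with h
  · subst h; simp
  · obtain ⟨i, hi⟩ := Function.ne_iff.mp h
    exact Finset.prod_eq_zero (Finset.mem_univ i) (by simp [hi])

/-- The shift attached to a bit. -/
def shift (b : Bool) : ZMod 3 := if b = true then 2 else 1

def sig0 {k : ℕ} (s : Idx k → ZMod 3) (x : Idx k) (g : Pt k) : ℝ :=
  walsh x g.1 * (if g.2 = s x then 1 else 0)

def tau0 {k : ℕ} (s : Idx k → ZMod 3) (j : Idx (k + 1)) (g : Pt k) : ℝ :=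
  walsh (Fin.tail j) g.1 * (if g.2 = s (Fin.tail j) + shift (j 0) then 1 else 0)

theorem gen_orth {k : ℕ} (x x' : Idx k) (a a' : ZMod 3) :
    ∑ g : Pt k, (walsh x g.1 * (if g.2 = a then (1 : ℝ) else 0)) *
      (walsh x' g.1 * (if g.2 = a' then (1 : ℝ) else 0)) =
      if x = x' ∧ a = a' then (2 : ℝ) ^ k else 0 := by
  rw [Fintype.sum_prod_type]
  have : ∀ u : Idx k, ∑ v : ZMod 3, (walsh x u * (if v = a then (1 : ℝ) else 0)) *
      (walsh x' u * (if v = a' then (1 : ℝ) else 0)) =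
      (walsh x u * walsh x' u) * (if a = a' then (1 : ℝ) else 0) := by
    intro u
    rw [Finset.sum_eq_single a]
    · by_cases h : a = a' <;> simp [h]
    · intro b _ hb; simp [hb]
    · simp
  simp only [this]
  rw [← Finset.sum_mul, walsh_orth]
  by_cases h1 : x = x' <;> by_cases h2 : a = a' <;> simp [h1, h2]

theorem shift_ne_zero (b : Bool) : shift b ≠ 0 := by
  cases b <;> decide

theorem shift_inj (b b' : Bool) (h : shift b = shift b') : b = b' := by
  revert h
  cases b <;> cases b' <;> decide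

theorem sum_succ {k : ℕ} (f : Idx (k + 1) → ℝ) :
    ∑ j, f j = ∑ x : Idx k, (f (Fin.cons false x) + f (Fin.cons true x)) := by
  rw [← (Fin.consEquiv (fun _ : Fin (k + 1) => Bool)).sum_comp, Fintype.sum_prod_type,
    Finset.sum_comm]
  refine Finset.sum_congr rfl fun x _ => ?_
  rw [Fintype.sum_bool, add_comm]
  rfl

/-- The data of the system. -/
structure Sys where
  sig : ∀ k, Idx k → Pt k → ℝ
  tau : ∀ k, Idx (k + 1) → Pt k → ℝ
  sig_orth : ∀ k i i', ∑ g, sig k i g * sig k i' g = if i = i' then (2 : ℝ) ^ k else 0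
  tau_orth : ∀ k j j', ∑ g, tau k j g * tau k j' g = if j = j' then (2 : ℝ) ^ k else 0
  sig_tau : ∀ k i j, ∑ g, sig k i g * tau k j g = 0
  sig_le : ∀ k i g, |sig k i g| ≤ 1
  tau_le : ∀ k j g, |tau k j g| ≤ 1
  diag : ∀ k, ∑ g, ∑ h, ((1 / 2) * ∑ j, tau k j g * tau k j h -
    ∑ i, sig k i g * sig k i h) ^ 4 ≤ 36 * ((2 : ℝ) ^ k) ^ 4
  cross : ∀ k, ∑ g, ∑ h, (∑ j, tau k j g * sig (k + 1) j h) ^ 4 ≤ 288 * ((2 : ℝ) ^ k) ^ 4

theorem abs_sig0 {k : ℕ} (s : Idx k → ZMod 3) (x : Idx k) (g : Pt k) : |sig0 s x g| ≤ 1 := by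
  unfold sig0
  rw [abs_mul, abs_walsh]
  split_ifs <;> simp

theorem abs_tau0 {k : ℕ} (s : Idx k → ZMod 3) (j : Idx (k + 1)) (g : Pt k) :
    |tau0 s j g| ≤ 1 := by
  unfold tau0
  rw [abs_mul, abs_walsh]
  split_ifs <;> simp

/-- the mean zero local kernel -/
noncomputable def ker3 (v v' l : ZMod 3) : ℝ :=
  (1 / 2) * ((if v = l + 1 then (1 : ℝ) else 0) * (if v' = l + 1 then (1 : ℝ) else 0) +
    (if v = l + 2 then (1 : ℝ) else 0) * (if v' = l + 2 then (1 : ℝ) else 0)) -
    (if v = l then (1 : ℝ) else 0) * (if v' = l then (1 : ℝ) else 0)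

theorem sum_ker3 (v v' : ZMod 3) : ∑ l, ker3 v v' l = 0 := by
  have e : ∀ c : ZMod 3, ∑ l : ZMod 3, (if v = l + c then (1 : ℝ) else 0) *
      (if v' = l + c then (1 : ℝ) else 0) = if v = v' then 1 else 0 := by
    intro c
    rw [Finset.sum_eq_single (v - c)]
    · by_cases h : v = v'
      · simp [h]
      · simp [h, Ne.symm h]
    · intro b _ hb
      have : v ≠ b + c := by
        intro h; apply hb; rw [h]; ring
      simp [this]
    · simp
  have e0 := e 0
  simp only [add_zero] at e0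
  unfold ker3
  rw [Finset.sum_sub_distrib, ← Finset.mul_sum, Finset.sum_add_distrib, e 1, e 2, e0]
  ring

theorem abs_ker3 (v v' l : ZMod 3) : |ker3 v v' l| ≤ 1 := by
  unfold ker3
  split_ifs <;> norm_num [abs_le]

theorem exists_s (k : ℕ) : ∃ s : Idx k → ZMod 3,
    ∑ g, ∑ h, ((1 / 2) * ∑ j, tau0 s j g * tau0 s j h -
      ∑ i, sig0 s i g * sig0 s i h) ^ 4 ≤ 36 * ((2 : ℝ) ^ k) ^ 4 := by
  obtain ⟨s, hs⟩ := exists_choice (I := Idx k) (J := Pt k × Pt k) (L := ZMod 3)
    (fun p x l => walsh x p.1.1 * walsh x p.2.1 * ker3 p.1.2 p.2.2 l)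
    (fun p x => by rw [← Finset.mul_sum, sum_ker3, mul_zero])
    (fun p x l => by
      rw [abs_mul, abs_mul, abs_walsh, abs_walsh]
      simpa using abs_ker3 _ _ _)
  refine ⟨s, ?_⟩
  rw [Fintype.sum_prod_type, Fintype.card_prod, Nat.cast_mul, card_Pt, card_Idx] at hs
  refine le_trans (le_of_eq ?_) (hs.trans (le_of_eq (by ring)))
  refine Finset.sum_congr rfl fun g _ => Finset.sum_congr rfl fun h _ => ?_
  congr 1
  rw [sum_succ, Finset.mul_sum, ← Finset.sum_sub_distrib]
  refine Finset.sum_congr rfl fun x _ => ?_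
  simp only [tau0, sig0, ker3, Fin.tail_cons, Fin.cons_zero, shift]
  simp only [Bool.false_eq_true, if_false, if_true]
  ring

def sgn (b : Bool) : ℝ := if b = true then -1 else 1

theorem abs_sgn (b : Bool) : |sgn b| = 1 := by
  cases b <;> simp [sgn]

theorem sgn_mul_self (b : Bool) : sgn b * sgn b = 1 := by
  cases b <;> simp [sgn]

theorem exists_eps (k : ℕ) (s : Idx k → ZMod 3) (s' : Idx (k + 1) → ZMod 3) :
    ∃ e : Idx (k + 1) → Bool,
      ∑ g, ∑ h, (∑ j, tau0 s j g * (sgn (e j) * sig0 s' j h)) ^ 4 ≤ 288 * ((2 : ℝ) ^ k) ^ 4 := by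
  obtain ⟨e, he⟩ := exists_choice (I := Idx (k + 1)) (J := Pt k × Pt (k + 1)) (L := Bool)
    (fun p j l => tau0 s j p.1 * (sgn l * sig0 s' j p.2))
    (fun p j => by simp [sgn])
    (fun p j l => by
      rw [abs_mul, abs_mul, abs_sgn, one_mul]
      exact mul_le_one₀ (abs_tau0 _ _ _) (abs_nonneg _) (abs_sig0 _ _ _))
  refine ⟨e, ?_⟩
  rw [Fintype.sum_prod_type, Fintype.card_prod, Nat.cast_mul, card_Pt, card_Pt, card_Idx] at he
  exact he.trans (le_of_eq (by ring))

theorem nonempty_sys : Nonempty Sys := by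
  choose s hs using exists_s
  choose e he using exists_eps
  let eps : ∀ k, Idx k → Bool := fun k =>
    match k with
    | 0 => fun _ => false
    | k + 1 => e k (s k) (s (k + 1))
  refine ⟨⟨fun k i g => sgn (eps k i) * sig0 (s k) i g, fun k j g => tau0 (s k) j g,
    ?_, ?_, ?_, ?_, ?_, ?_, ?_⟩⟩
  · intro k i i'
    have := gen_orth i i' (s k i) (s k i')
    have h2 : ∀ g, sgn (eps k i) * sig0 (s k) i g * (sgn (eps k i') * sig0 (s k) i' g) =
        sgn (eps k i) * sgn (eps k i') * (sig0 (s k) i g * sig0 (s k) i' g) := fun g => by ring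
    simp only [h2]
    rw [← Finset.mul_sum]
    unfold sig0
    rw [this]
    by_cases h : i = i'
    · subst h; simp [sgn_mul_self]
    · simp [h]
  · intro k j j'
    unfold tau0
    rw [gen_orth]
    by_cases h : j = j'
    · subst h; simp
    · rw [if_neg h, if_neg]
      rintro ⟨h1, h2⟩
      apply h
      rw [h1] at h2
      have h3 := shift_inj _ _ (add_left_cancel h2)
      rw [← Fin.cons_self_tail j, ← Fin.cons_self_tail j', h1, h3]
  · intro k i j
    have h2 : ∀ g, sgn (eps k i) * sig0 (s k) i g * tau0 (s k) j g =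
        sgn (eps k i) * (sig0 (s k) i g * tau0 (s k) j g) := fun g => by ring
    simp only [h2]
    rw [← Finset.mul_sum]
    unfold sig0 tau0
    rw [gen_orth, if_neg, mul_zero]
    rintro ⟨h1, h2⟩
    rw [h1] at h2
    exact shift_ne_zero _ (left_eq_add.mp h2)
  · intro k i g
    rw [abs_mul, abs_sgn, one_mul]
    exact abs_sig0 _ _ _
  · intro k j g
    exact abs_tau0 _ _ _
  · intro k
    have h2 : ∀ i g h, sgn (eps k i) * sig0 (s k) i g * (sgn (eps k i) * sig0 (s k) i h) =
        sig0 (s k) i g * sig0 (s k) i h := fun i g h => by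
      have := sgn_mul_self (eps k i)
      linear_combination (sig0 (s k) i g * sig0 (s k) i h) * this
    simp only [h2]
    exact hs k
  · intro k
    exact he k (s k) (s (k + 1))

end Pool.Agent.Lib.MP_ed68f3_an
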