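import Mathlib
import Pool.Agent.Lib.MP_ed68f3_an.System
import Pool.Agent.Lib.MP_ed68f3_an.Core

/-!
The Davie type space: a closed subspace of the sum of finite dimensional four-norm blocks.
-/

set_option autoImplicit false

namespace Pool.Agent.Lib.MP_ed68f3_an

open Finset
open scoped ENNReal

instance fact_four : Fact ((1 : ℝ≥0∞) ≤ 4) := ⟨by norm_num⟩

abbrev Blk (k : ℕ) : Type := PiLp 4 (fun _ : Pt k => ℝ)

abbrev Amb : Type := lp Blk 1

theorem norm_blk {k : ℕ} (u : Blk k) : ‖u‖ ^ 4 = ∑ g, u g ^ 4 := by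
  rw [PiLp.norm_eq_of_nat 4 (by norm_num) u]
  have h0 : 0 ≤ ∑ g, ‖u g‖ ^ 4 := Finset.sum_nonneg fun g _ => by positivity
  rw [one_div, Real.rpow_inv_natCast_pow h0 (by norm_num)]
  refine Finset.sum_congr rfl fun g _ => ?_
  rw [Real.norm_eq_abs, show (4 : ℕ) = 2 * 2 from rfl, pow_mul, sq_abs, ← pow_mul]

theorem separable_Amb : TopologicalSpace.SeparableSpace Amb := by
  rw [← TopologicalSpace.isSeparable_univ_iff]
  have h1 : TopologicalSpace.IsSeparable
      (⋃ k : ℕ, Set.range (fun a : Blk k => (lp.single 1 k a : Amb))) :=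
    TopologicalSpace.IsSeparable.iUnion fun k =>
      TopologicalSpace.isSeparable_range (lp.isometry_single k).continuous
  have h2 := (h1.span (R := ℝ)).closure
  refine h2.mono fun f _ => ?_
  have h3 := lp.hasSum_single (p := 1) (by norm_num) f
  refine mem_closure_of_tendsto h3 (Filter.Eventually.of_forall fun s => ?_)
  refine Submodule.sum_mem _ fun k _ => Submodule.subset_span ?_
  exact Set.mem_iUnion.mpr ⟨k, f k, rfl⟩

/-- evaluation at a point -/
noncomputable def ev (k : ℕ) (g : Pt k) : Amb →L[ℝ] ℝ :=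
  (PiLp.proj 4 (fun _ : Pt k => ℝ) g).comp (lp.evalCLM ℝ Blk 1 k)

theorem ev_apply (k : ℕ) (g : Pt k) (f : Amb) : ev k g f = f k g := rfl

theorem abs_ev_le (k : ℕ) (g : Pt k) (f : Amb) : |f k g| ≤ ‖f‖ :=
  (PiLp.norm_apply_le (f k) g).trans (lp.norm_apply_le_norm one_ne_zero f k)

/-- pairing with a function on the block -/
noncomputable def pair (k : ℕ) (w : Pt k → ℝ) : Amb →L[ℝ] ℝ := ∑ g, w g • ev k g

theorem pair_apply (k : ℕ) (w : Pt k → ℝ) (f : Amb) : pair k w f = ∑ g, w g * f k g := by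
  simp [pair, ev_apply]

/-- a block vector -/
noncomputable def blk (k : ℕ) : (Pt k → ℝ) →ₗ[ℝ] Amb :=
  (lp.lsingle 1 k).comp (WithLp.linearEquiv 4 ℝ (Pt k → ℝ)).symm.toLinearMap

theorem blk_self (k : ℕ) (w : Pt k → ℝ) (g : Pt k) : blk k w k g = w g := by
  simp [blk]

theorem blk_ne (k : ℕ) (w : Pt k → ℝ) (m : ℕ) (h : m ≠ k) (g : Pt m) : blk k w m g = 0 := by
  simp [blk, h]

theorem norm_blk_pow (k : ℕ) (w : Pt k → ℝ) : ‖blk k w‖ ^ 4 = ∑ g, w g ^ 4 := by
  have : blk k w = lp.single 1 k (WithLp.toLp 4 w) := rfl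
  rw [this, lp.norm_single (by norm_num), norm_blk]

theorem pair_blk_self (k : ℕ) (w w' : Pt k → ℝ) : pair k w (blk k w') = ∑ g, w g * w' g := by
  simp only [pair_apply, blk_self]

theorem pair_blk_ne (k m : ℕ) (h : m ≠ k) (w : Pt m → ℝ) (w' : Pt k → ℝ) :
    pair m w (blk k w') = 0 := by
  simp only [pair_apply, blk_ne k w' m h, mul_zero, Finset.sum_const_zero]

namespace Sys

variable (S : Sys)

/-- The subspace on which the two representations of the functionals agree. -/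
noncomputable def sub : Submodule ℝ Amb :=
  ⨅ (k : ℕ) (j : Idx (k + 1)),
    LinearMap.ker ((pair (k + 1) (S.sig (k + 1) j) - (2 : ℝ) • pair k (S.tau k j) :
      Amb →L[ℝ] ℝ) : Amb →ₗ[ℝ] ℝ)

theorem mem_sub (f : Amb) : f ∈ S.sub ↔ ∀ k j,
    pair (k + 1) (S.sig (k + 1) j) f = 2 * pair k (S.tau k j) f := by
  simp [sub, Submodule.mem_iInf, sub_eq_zero]

theorem isClosed_sub : IsClosed (S.sub : Set Amb) := by
  have : (S.sub : Set Amb) = ⋂ (k : ℕ) (j : Idx (k + 1)),
      {f | pair (k + 1) (S.sig (k + 1) j) f = 2 * pair k (S.tau k j) f} := by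
    ext f
    simp [mem_sub]
  rw [this]
  exact isClosed_iInter fun k => isClosed_iInter fun j => isClosed_eq (by fun_prop) (by fun_prop)

theorem e_mem (k : ℕ) (j : Idx (k + 1)) :
    blk k (S.tau k j) + blk (k + 1) (S.sig (k + 1) j) ∈ S.sub := by
  rw [mem_sub]
  intro m i
  rw [map_add, map_add]
  by_cases h1 : m = k
  · subst h1
    rw [pair_blk_ne m (m + 1) (by omega), pair_blk_self, pair_blk_self,
      pair_blk_ne (m + 1) m (by omega), S.sig_orth, S.tau_orth]
    split_ifs <;> ring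
  · by_cases h2 : k = m + 1
    · subst h2
      rw [pair_blk_self, S.sig_tau, pair_blk_ne _ _ (by omega), pair_blk_ne _ _ (by omega),
        pair_blk_ne _ _ (by omega)]
      ring
    · by_cases h3 : m = k + 1
      · subst h3
        rw [pair_blk_ne _ _ (by omega), pair_blk_ne _ _ (by omega), pair_blk_ne _ _ (by omega),
          pair_blk_self]
        have := S.sig_tau (k + 1) j i
        simp only [mul_comm (S.sig (k + 1) j _)] at this
        rw [this]
        ring
      · rw [pair_blk_ne _ _ (by omega), pair_blk_ne _ _ (by omega), pair_blk_ne _ _ (by omega),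
          pair_blk_ne _ _ (by omega)]
        ring

/-- The vectors of the system. -/
noncomputable def e (k : ℕ) (j : Idx (k + 1)) : S.sub :=
  ⟨blk k (S.tau k j) + blk (k + 1) (S.sig (k + 1) j), S.e_mem k j⟩

/-- The functionals of the system. -/
noncomputable def A (k : ℕ) (j : Idx (k + 1)) : S.sub →L[ℝ] ℝ :=
  ((2 : ℝ) ^ (k + 1))⁻¹ • (pair (k + 1) (S.sig (k + 1) j)).comp S.sub.subtypeL

theorem A_apply (k : ℕ) (j : Idx (k + 1)) (x : S.sub) :
    S.A k j x = ((2 : ℝ) ^ (k + 1))⁻¹ * ∑ g, S.sig (k + 1) j g * (x : Amb) (k + 1) g := by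
  simp [A, pair_apply]

theorem A_apply' (k : ℕ) (j : Idx (k + 1)) (x : S.sub) :
    S.A k j x = ((2 : ℝ) ^ k)⁻¹ * ∑ g, S.tau k j g * (x : Amb) k g := by
  have h := (S.mem_sub x).mp x.2 k j
  rw [pair_apply, pair_apply] at h
  rw [A_apply, h]
  field_simp
  ring

theorem coe_sum_e (k : ℕ) (a : Idx (k + 1) → ℝ) :
    ((∑ j, a j • S.e k j : S.sub) : Amb) =
      blk k (fun g => ∑ j, a j * S.tau k j g) +
        blk (k + 1) (fun g => ∑ j, a j * S.sig (k + 1) j g) := by
  have e1 : (fun g => ∑ j, a j * S.tau k j g) = ∑ j, a j • S.tau k j := by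
    funext g; simp
  have e2 : (fun g => ∑ j, a j * S.sig (k + 1) j g) = ∑ j, a j • S.sig (k + 1) j := by
    funext g; simp
  rw [e1, e2, map_sum, map_sum, ← Finset.sum_add_distrib, Submodule.coe_sum]
  refine Finset.sum_congr rfl fun j _ => ?_
  rw [map_smul, map_smul, ← smul_add]
  rfl

theorem A_e (k : ℕ) (j : Idx (k + 1)) : S.A k j (S.e k j) = 1 := by
  have : S.A k j (S.e k j) = ((2 : ℝ) ^ (k + 1))⁻¹ * pair (k + 1) (S.sig (k + 1) j)
      (blk k (S.tau k j) + blk (k + 1) (S.sig (k + 1) j)) := by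
    rw [A_apply, pair_apply]; rfl
  rw [this, map_add, pair_blk_ne _ _ (by omega), pair_blk_self, S.sig_orth, if_pos rfl, zero_add]
  field_simp

theorem A_le (k : ℕ) (j : Idx (k + 1)) (x : S.sub) : |S.A k j x| ≤ 3 * ‖x‖ := by
  rw [A_apply, abs_mul, abs_of_pos (by positivity)]
  have h1 : |∑ g, S.sig (k + 1) j g * (x : Amb) (k + 1) g| ≤ 3 * 2 ^ (k + 1) * ‖x‖ := by
    calc _ ≤ ∑ g, |S.sig (k + 1) j g * (x : Amb) (k + 1) g| := Finset.abs_sum_le_sum_abs _ _
      _ ≤ ∑ _g : Pt (k + 1), ‖x‖ := by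
          refine Finset.sum_le_sum fun g _ => ?_
          rw [abs_mul]
          exact (mul_le_of_le_one_left (abs_nonneg _) (S.sig_le _ _ _)).trans
            (abs_ev_le _ g (x : Amb))
      _ = _ := by rw [Finset.sum_const, Finset.card_univ, nsmul_eq_mul, card_Pt]
  calc ((2 : ℝ) ^ (k + 1))⁻¹ * |∑ g, S.sig (k + 1) j g * (x : Amb) (k + 1) g|
      ≤ ((2 : ℝ) ^ (k + 1))⁻¹ * (3 * 2 ^ (k + 1) * ‖x‖) :=
        mul_le_mul_of_nonneg_left h1 (by positivity)
    _ = 3 * ‖x‖ := by field_simp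

end Sys

end Pool.Agent.Lib.MP_ed68f3_an
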