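import Mathlib
import Pool.Agent.Lib.MP_ed68f3_an.Space

/-!
The estimates showing that the Davie type space carries an Enflo system in good position.
-/

set_option autoImplicit false

namespace Pool.Agent.Lib.MP_ed68f3_an

open Finset

noncomputable def nu (k : ℕ) : ℝ := Real.sqrt (Real.sqrt (2 ^ (k + 1)))

theorem nu_pos (k : ℕ) : 0 < nu k := by
  unfold nu; positivity

theorem nu_pow (k : ℕ) : nu k ^ 4 = 2 ^ (k + 1) := by
  unfold nu
  rw [show (4 : ℕ) = 2 * 2 from rfl, pow_mul, Real.sq_sqrt (Real.sqrt_nonneg _),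
    Real.sq_sqrt (by positivity)]

theorem le_add_pow_four (a θ : ℝ) (hθ : 0 < θ) : a ≤ θ + a ^ 4 / θ ^ 3 := by
  by_cases h : a ≤ θ
  · have : 0 ≤ a ^ 4 / θ ^ 3 := by positivity
    linarith
  · push Not at h
    have h1 : θ ^ 3 ≤ a ^ 3 := pow_le_pow_left₀ hθ.le h.le 3
    have h2 : a ≤ a ^ 4 / θ ^ 3 := by
      rw [le_div_iff₀ (by positivity)]
      nlinarith
    linarith

theorem sum_norm_blk_le {G : Type} [Fintype G] (m : ℕ) (w : G → Pt m → ℝ) (θ B : ℝ) (hθ : 0 < θ)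
    (h : ∑ g, ∑ p, w g p ^ 4 ≤ B) :
    ∑ g, ‖blk m (w g)‖ ≤ Fintype.card G * θ + B / θ ^ 3 := by
  calc ∑ g, ‖blk m (w g)‖ ≤ ∑ g, (θ + (∑ p, w g p ^ 4) / θ ^ 3) := by
        refine Finset.sum_le_sum fun g _ => ?_
        rw [← norm_blk_pow]
        exact le_add_pow_four _ _ hθ
    _ = Fintype.card G * θ + (∑ g, ∑ p, w g p ^ 4) / θ ^ 3 := by
        rw [Finset.sum_add_distrib, Finset.sum_const, Finset.card_univ, nsmul_eq_mul,
          Finset.sum_div]
    _ ≤ _ := by gcongr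

namespace Sys

variable (S : Sys)

theorem trace (k : ℕ) (L : ℝ) (y : Idx (k + 1) → S.sub) (y' : Idx (k + 1 + 1) → S.sub)
    (hL : 0 ≤ L)
    (h : ∀ (a : Idx (k + 1) → ℝ) (b : Idx (k + 1 + 1) → ℝ),
      ‖∑ j, a j • y j + ∑ j, b j • y' j‖ ≤
      L * ‖∑ j, a j • S.e k j + ∑ j, b j • S.e (k + 1) j‖) :
    |(∑ j, S.A (k + 1) j (y' j)) / nu (k + 1) ^ 4 - (∑ j, S.A k j (y j)) / nu k ^ 4| ≤
      L * (450 * (9 / 10) ^ k - 450 * (9 / 10) ^ (k + 1)) := by
  set n : ℝ := 2 ^ (k + 1) with hn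
  have hnpos : 0 < n := by positivity
  let a : Pt (k + 1) → Idx (k + 1) → ℝ := fun g i => -(S.sig (k + 1) i g / n)
  let b : Pt (k + 1) → Idx (k + 1 + 1) → ℝ := fun g j => S.tau (k + 1) j g / (2 * n)
  have e1 : (∑ j, S.A (k + 1) j (y' j)) / nu (k + 1) ^ 4 - (∑ j, S.A k j (y j)) / nu k ^ 4 =
      n⁻¹ * ∑ g, ((∑ j, a g j • y j + ∑ j, b g j • y' j : S.sub) : Amb) (k + 1) g := by
    have e2 : ∀ g, ((∑ j, a g j • y j + ∑ j, b g j • y' j : S.sub) : Amb) (k + 1) g =
        ∑ j, a g j * (y j : Amb) (k + 1) g + ∑ j, b g j * (y' j : Amb) (k + 1) g := by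
      intro g
      rw [← ev_apply, Submodule.coe_add, Submodule.coe_sum, Submodule.coe_sum, map_add,
        map_sum, map_sum]
      simp only [Submodule.coe_smul, map_smul, smul_eq_mul, ev_apply]
    simp only [e2]
    rw [Finset.sum_add_distrib, Finset.sum_comm, Finset.sum_comm (f := fun g j => b g j * _),
      nu_pow, nu_pow, mul_add, add_comm (n⁻¹ * _), sub_eq_add_neg, Finset.sum_div, Finset.sum_div,
      ← Finset.sum_neg_distrib, Finset.mul_sum, Finset.mul_sum]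
    congr 1
    · refine Finset.sum_congr rfl fun j _ => ?_
      rw [A_apply', Finset.mul_sum, Finset.mul_sum, Finset.sum_div]
      refine Finset.sum_congr rfl fun g _ => ?_
      simp only [b]
      rw [pow_succ (2 : ℝ) (k + 1), ← hn]
      field_simp
    · refine Finset.sum_congr rfl fun j _ => ?_
      rw [A_apply, Finset.mul_sum, Finset.mul_sum, Finset.sum_div, ← Finset.sum_neg_distrib]
      refine Finset.sum_congr rfl fun g _ => ?_
      simp only [a]
      rw [← hn]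
      field_simp
  set θ : ℝ := (9 / 10) ^ k with hθ
  have hθpos : 0 < θ := by positivity
  let w1 : Pt (k + 1) → Pt k → ℝ := fun g p => ∑ j, a g j * S.tau k j p
  let w2 : Pt (k + 1) → Pt (k + 1) → ℝ := fun g p =>
    ∑ j, a g j * S.sig (k + 1) j p + ∑ j, b g j * S.tau (k + 1) j p
  let w3 : Pt (k + 1) → Pt (k + 1 + 1) → ℝ := fun g p => ∑ j, b g j * S.sig (k + 1 + 1) j p
  have e3 : ∀ g, ‖∑ j, a g j • S.e k j + ∑ j, b g j • S.e (k + 1) j‖ ≤
      ‖blk k (w1 g)‖ + ‖blk (k + 1) (w2 g)‖ + ‖blk (k + 1 + 1) (w3 g)‖ := by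
    intro g
    rw [← Submodule.norm_coe, Submodule.coe_add, coe_sum_e, coe_sum_e]
    refine le_trans (le_of_eq ?_) norm_add₃_le
    congr 1
    have : w2 g = (fun p => ∑ j, a g j * S.sig (k + 1) j p) +
        (fun p => ∑ j, b g j * S.tau (k + 1) j p) := rfl
    rw [this, map_add]
    abel
  have b1 : ∑ g, ∑ p, w1 g p ^ 4 ≤ 18 := by
    have h1 := S.cross k
    have e4 : ∀ g p, w1 g p ^ 4 = (∑ j, S.tau k j p * S.sig (k + 1) j g) ^ 4 / n ^ 4 := by
      intro g p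
      have : w1 g p = -((∑ j, S.tau k j p * S.sig (k + 1) j g) / n) := by
        simp only [w1, a]
        rw [Finset.sum_div, ← Finset.sum_neg_distrib]
        exact Finset.sum_congr rfl fun j _ => by ring
      rw [this, Even.neg_pow (by norm_num), div_pow]
    simp only [e4, ← Finset.sum_div]
    rw [Finset.sum_comm, div_le_iff₀ (by positivity)]
    refine h1.trans (le_of_eq ?_)
    rw [hn]; ring
  have b2 : ∑ g, ∑ p, w2 g p ^ 4 ≤ 36 := by
    have h1 := S.diag (k + 1)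
    have e4 : ∀ g p, w2 g p ^ 4 = ((1 / 2) * ∑ j, S.tau (k + 1) j g * S.tau (k + 1) j p -
        ∑ i, S.sig (k + 1) i g * S.sig (k + 1) i p) ^ 4 / n ^ 4 := by
      intro g p
      rw [← div_pow]
      congr 1
      simp only [w2, a, b]
      rw [sub_div, Finset.mul_sum, Finset.sum_div, Finset.sum_div, sub_eq_add_neg,
        ← Finset.sum_neg_distrib, add_comm]
      congr 1
      · exact Finset.sum_congr rfl fun j _ => by field_simp
      · exact Finset.sum_congr rfl fun j _ => by ring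
    simp only [e4, ← Finset.sum_div]
    rw [div_le_iff₀ (by positivity)]
    exact h1
  have b3 : ∑ g, ∑ p, w3 g p ^ 4 ≤ 18 := by
    have h1 := S.cross (k + 1)
    have e4 : ∀ g p, w3 g p ^ 4 =
        (∑ j, S.tau (k + 1) j g * S.sig (k + 1 + 1) j p) ^ 4 / (2 * n) ^ 4 := by
      intro g p
      rw [← div_pow]
      congr 1
      simp only [w3, b]
      rw [Finset.sum_div]
      exact Finset.sum_congr rfl fun j _ => by ring
    simp only [e4, ← Finset.sum_div]
    rw [div_le_iff₀ (by positivity)]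
    refine h1.trans (le_of_eq ?_)
    rw [hn]; ring
  have c1 := sum_norm_blk_le k w1 θ 18 hθpos b1
  have c2 := sum_norm_blk_le (k + 1) w2 θ 36 hθpos b2
  have c3 := sum_norm_blk_le (k + 1 + 1) w3 θ 18 hθpos b3
  rw [card_Pt, ← hn] at c1 c2 c3
  have hnθ : 2 ≤ n * θ ^ 4 := by
    rw [hn, hθ, ← pow_mul, mul_comm k 4, pow_mul, pow_succ, mul_right_comm, ← mul_pow]
    have : (1 : ℝ) ≤ (2 * (9 / 10) ^ 4) ^ k := one_le_pow₀ (by norm_num)
    linarith
  have c4 : 72 / θ ^ 3 ≤ 36 * (n * θ) := by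
    rw [div_le_iff₀ (by positivity)]
    nlinarith
  rw [e1, abs_mul, abs_of_pos (inv_pos.mpr hnpos)]
  have c5 : |∑ g, ((∑ j, a g j • y j + ∑ j, b g j • y' j : S.sub) : Amb) (k + 1) g| ≤
      L * (45 * (n * θ)) := by
    calc _ ≤ ∑ g, |((∑ j, a g j • y j + ∑ j, b g j • y' j : S.sub) : Amb) (k + 1) g| :=
          Finset.abs_sum_le_sum_abs _ _
      _ ≤ ∑ g, L * (‖blk k (w1 g)‖ + ‖blk (k + 1) (w2 g)‖ + ‖blk (k + 1 + 1) (w3 g)‖) := by
          refine Finset.sum_le_sum fun g _ => ?_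
          refine (abs_ev_le _ g _).trans ?_
          rw [Submodule.norm_coe]
          exact (h _ _).trans (mul_le_mul_of_nonneg_left (e3 g) hL)
      _ ≤ L * (45 * (n * θ)) := by
          rw [← Finset.mul_sum, Finset.sum_add_distrib, Finset.sum_add_distrib]
          refine mul_le_mul_of_nonneg_left ?_ hL
          have : 72 / θ ^ 3 = 18 / θ ^ 3 + 36 / θ ^ 3 + 18 / θ ^ 3 := by ring
          linarith
  calc n⁻¹ * |∑ g, ((∑ j, a g j • y j + ∑ j, b g j • y' j : S.sub) : Amb) (k + 1) g|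
      ≤ n⁻¹ * (L * (45 * (n * θ))) := mul_le_mul_of_nonneg_left c5 (by positivity)
    _ = _ := by
        rw [pow_succ, ← hθ]
        field_simp
        ring

theorem dual (k : ℕ) (s : Idx (k + 1) → ℝ) (x : S.sub) :
    (∑ j, s j * S.A k j x) ^ 2 ≤ (2 * ‖(x : Amb) (k + 1)‖ / nu k) ^ 2 * ∑ j, s j ^ 2 := by
  set n : ℝ := 2 ^ (k + 1) with hn
  have hnpos : 0 < n := by positivity
  have hnu := nu_pos k
  have hnu4 : nu k ^ 4 = n := nu_pow k
  set u := (x : Amb) (k + 1) with hu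
  have e1 : ∑ j, s j * S.A k j x = n⁻¹ * ∑ g, (∑ j, s j * S.sig (k + 1) j g) * u g := by
    simp only [A_apply, Finset.sum_mul, Finset.mul_sum]
    rw [Finset.sum_comm]
    exact Finset.sum_congr rfl fun g _ => Finset.sum_congr rfl fun j _ => by ring
  have e2 : ∑ g, (∑ j, s j * S.sig (k + 1) j g) ^ 2 = n * ∑ j, s j ^ 2 := by
    have : ∀ g, (∑ j, s j * S.sig (k + 1) j g) ^ 2 =
        ∑ j, ∑ j', s j * s j' * (S.sig (k + 1) j g * S.sig (k + 1) j' g) := by
      intro g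
      rw [sq, Finset.sum_mul_sum]
      exact Finset.sum_congr rfl fun j _ => Finset.sum_congr rfl fun j' _ => by ring
    simp only [this]
    rw [Finset.sum_comm, Finset.mul_sum]
    refine Finset.sum_congr rfl fun j _ => ?_
    rw [Finset.sum_comm]
    simp only [← Finset.mul_sum, S.sig_orth]
    rw [Finset.sum_eq_single j]
    · simp only [if_true]; ring
    · intro j' _ hj; simp [Ne.symm hj]
    · simp
  have h3 : ∑ g, u g ^ 2 ≤ 2 * nu k ^ 2 * ‖u‖ ^ 2 := by
    have h4 := sq_sum_le_card_mul_sum_sq (s := Finset.univ) (f := fun g => u g ^ 2)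
    rw [Finset.card_univ, card_Pt, ← hn] at h4
    have h5 : ∑ g, (u g ^ 2) ^ 2 = ‖u‖ ^ 4 := by
      rw [norm_blk]
      exact Finset.sum_congr rfl fun g _ => by ring
    rw [h5] at h4
    refine (pow_le_pow_iff_left₀ (Finset.sum_nonneg fun g _ => sq_nonneg _) (by positivity)
      two_ne_zero).mp ?_
    calc (∑ g, u g ^ 2) ^ 2 ≤ 3 * n * ‖u‖ ^ 4 := h4
      _ ≤ 4 * n * ‖u‖ ^ 4 := by gcongr; norm_num
      _ = _ := by rw [← hnu4]; ring
  have h6 := Finset.sum_mul_sq_le_sq_mul_sq Finset.univ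
    (fun g => ∑ j, s j * S.sig (k + 1) j g) (fun g => u g)
  rw [e2] at h6
  have hs : 0 ≤ ∑ j, s j ^ 2 := Finset.sum_nonneg fun j _ => sq_nonneg _
  rw [e1, mul_pow]
  calc n⁻¹ ^ 2 * (∑ g, (∑ j, s j * S.sig (k + 1) j g) * u g) ^ 2
      ≤ n⁻¹ ^ 2 * ((n * ∑ j, s j ^ 2) * (4 * nu k ^ 2 * ‖u‖ ^ 2)) := by
        refine mul_le_mul_of_nonneg_left (h6.trans ?_) (by positivity)
        refine mul_le_mul_of_nonneg_left (h3.trans ?_) (by positivity)
        gcongr; norm_num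
    _ = _ := by
        rw [← hnu4]
        field_simp
        ring

theorem small (K : Set S.sub) (hK : IsCompact K) (η : ℝ) (hη : 0 < η) (k1 : ℕ) :
    ∃ k, k1 ≤ k ∧ ∀ x ∈ K, |‖(x : Amb) (k + 1)‖| ≤ η := by
  obtain ⟨t, ht, hcov⟩ := Metric.totallyBounded_iff.mp hK.totallyBounded (η / 2) (by positivity)
  have h1 : ∀ c : S.sub, ∀ᶠ k in Filter.atTop, ‖(c : Amb) (k + 1)‖ ≤ η / 2 := by
    intro c
    have h2 := ((lp.memℓp (c : Amb)).summable (by norm_num)).tendsto_atTop_zero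
    simp only [ENNReal.toReal_one, Real.rpow_one] at h2
    have h3 := h2.comp (Filter.tendsto_add_atTop_nat 1)
    exact h3.eventually (ge_mem_nhds (by positivity))
  have h4 := (Filter.eventually_all_finite ht).mpr (fun c _ => h1 c)
  obtain ⟨k, hk1, hk2⟩ := ((Filter.eventually_ge_atTop k1).and h4).exists
  refine ⟨k, hk1, fun x hx => ?_⟩
  obtain ⟨c, hc, hxc⟩ := Set.mem_iUnion₂.mp (hcov hx)
  rw [abs_norm]
  have h5 : (x : Amb) (k + 1) = (c : Amb) (k + 1) + ((x - c : S.sub) : Amb) (k + 1) := by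
    simp
  have h6 : ‖((x - c : S.sub) : Amb) (k + 1)‖ ≤ η / 2 := by
    refine (lp.norm_apply_le_norm one_ne_zero _ _).trans ?_
    rw [Submodule.norm_coe, ← dist_eq_norm]
    exact (Metric.mem_ball.mp hxc).le
  rw [h5]
  refine (norm_add_le _ _).trans ?_
  linarith [hk2 c hc]

theorem four (k : ℕ) : ∃ (G : Type) (_ : Fintype G) (a : G → Idx (k + 1) → ℝ),
    (Fintype.card G : ℝ) ≤ 5 * nu k ^ 4 ∧ (∀ g j, |a g j| ≤ 1) ∧
    ∀ x : Idx (k + 1) → ℝ, ‖∑ j, x j • S.e k j‖ ^ 4 ≤ 8 * ∑ g, (∑ j, a g j * x j) ^ 4 := by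
  refine ⟨Pt k ⊕ Pt (k + 1), inferInstance,
    Sum.elim (fun g j => S.tau k j g) (fun g j => S.sig (k + 1) j g), ?_, ?_, ?_⟩
  · rw [Fintype.card_sum, Nat.cast_add, card_Pt, card_Pt, nu_pow, pow_succ]
    have : (0 : ℝ) < 2 ^ k := by positivity
    linarith
  · rintro (g | g) j
    · exact S.tau_le _ _ _
    · exact S.sig_le _ _ _
  · intro x
    rw [← Submodule.norm_coe, coe_sum_e, Fintype.sum_sum_type]
    simp only [Sum.elim_inl, Sum.elim_inr, mul_comm _ (x _)]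
    rw [← norm_blk_pow, ← norm_blk_pow]
    set p := ‖blk k (fun g => ∑ j, x j * S.tau k j g)‖ with hp
    set q := ‖blk (k + 1) (fun g => ∑ j, x j * S.sig (k + 1) j g)‖ with hq
    have h1 := pow_le_pow_left₀ (norm_nonneg _) (norm_add_le
      (blk k (fun g => ∑ j, x j * S.tau k j g))
      (blk (k + 1) (fun g => ∑ j, x j * S.sig (k + 1) j g))) 4
    refine h1.trans ?_
    rw [← hp, ← hq]
    have h2 : (p + q) ^ 2 ≤ 2 * (p ^ 2 + q ^ 2) := by nlinarith [sq_nonneg (p - q)]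
    have h3 : ((p + q) ^ 2) ^ 2 ≤ (2 * (p ^ 2 + q ^ 2)) ^ 2 :=
      pow_le_pow_left₀ (sq_nonneg _) h2 2
    nlinarith [sq_nonneg (p ^ 2 - q ^ 2)]

/-- The Enflo system on the Davie type space. -/
noncomputable def enflo : Enflo S.sub (fun k => Idx (k + 1)) where
  e := S.e
  A := S.A
  nu := nu
  Del := fun k => 450 * (9 / 10) ^ k
  N := fun k x => ‖(x : Amb) (k + 1)‖
  nu_pos := nu_pos
  card_eq := fun k => by rw [card_Idx, nu_pow]
  A_e := S.A_e
  A_le := S.A_le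
  Del_nonneg := fun k => by positivity
  Del_lim := by
    have := (tendsto_pow_atTop_nhds_zero_of_lt_one (r := (9 / 10 : ℝ)) (by norm_num)
      (by norm_num)).const_mul 450
    simpa using this
  trace := S.trace
  dual := S.dual
  small := S.small
  four := S.four

end Sys

end Pool.Agent.Lib.MP_ed68f3_an
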