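import Mathlib
import Pool.Agent.Lib.MP_ed68f3_an.Estimates

/-!
No generating compact convex Lipschitz retract in a space with an Enflo system in good position.
-/

set_option autoImplicit false

namespace Pool.Agent.Lib.MP_ed68f3_an

open Finset

variable {X : Type} [NormedAddCommGroup X] [NormedSpace ℝ X]

theorem segment_of_mem_span {K : Set X} (hK : Convex ℝ K) (h0 : (0 : X) ∈ K) (z : X)
    (hz : z ∈ Submodule.span ℝ K) :
    ∃ (x : X) (ρ : ℝ), 0 < ρ ∧ ∀ t : ℝ, |t| ≤ ρ → x + t • z ∈ K := by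
  induction hz using Submodule.span_induction with
  | mem z hz =>
    refine ⟨(1 / 2 : ℝ) • z, 1 / 2, by norm_num, fun t ht => ?_⟩
    rw [← add_smul]
    have := abs_le.mp ht
    exact hK.smul_mem_of_zero_mem h0 hz ⟨by linarith [this.1], by linarith [this.2]⟩
  | zero => exact ⟨0, 1, one_pos, fun t _ => by simpa using h0⟩
  | add z1 z2 _ _ h1 h2 =>
    obtain ⟨x1, ρ1, hρ1, h1⟩ := h1
    obtain ⟨x2, ρ2, hρ2, h2⟩ := h2
    refine ⟨(1 / 2 : ℝ) • x1 + (1 / 2 : ℝ) • x2, min ρ1 ρ2 / 2, by positivity, fun t ht => ?_⟩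
    have a1 : |2 * t| ≤ ρ1 := by
      rw [abs_mul, abs_two]; linarith [min_le_left ρ1 ρ2]
    have a2 : |2 * t| ≤ ρ2 := by
      rw [abs_mul, abs_two]; linarith [min_le_right ρ1 ρ2]
    have := hK (h1 _ a1) (h2 _ a2) (show (0 : ℝ) ≤ 1 / 2 by norm_num)
      (show (0 : ℝ) ≤ 1 / 2 by norm_num) (by norm_num)
    have e : (1 / 2 : ℝ) • x1 + (1 / 2 : ℝ) • x2 + t • (z1 + z2) =
        (1 / 2 : ℝ) • (x1 + (2 * t) • z1) + (1 / 2 : ℝ) • (x2 + (2 * t) • z2) := by module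
    rw [e]; exact this
  | smul a z _ h =>
    obtain ⟨x, ρ, hρ, h⟩ := h
    refine ⟨x, ρ / (|a| + 1), by positivity, fun t ht => ?_⟩
    rw [smul_smul]
    refine h _ ?_
    rw [abs_mul]
    rw [le_div_iff₀ (by positivity)] at ht
    nlinarith [abs_nonneg t]

theorem cube_of_mem_span {K : Set X} (hK : Convex ℝ K) (h0 : (0 : X) ∈ K) {I : Type}
    (z : I → X) (hz : ∀ j, z j ∈ Submodule.span ℝ K) (s : Finset I) :
    ∃ (x : X) (ρ : ℝ), 0 < ρ ∧ ∀ t : I → ℝ, (∀ j, |t j| ≤ ρ) → x + ∑ j ∈ s, t j • z j ∈ K := by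
  classical
  induction s using Finset.induction_on with
  | empty => exact ⟨0, 1, one_pos, fun t _ => by simpa using h0⟩
  | insert i s hi ih =>
    obtain ⟨x1, ρ1, hρ1, h1⟩ := segment_of_mem_span hK h0 (z i) (hz i)
    obtain ⟨x2, ρ2, hρ2, h2⟩ := ih
    refine ⟨(1 / 2 : ℝ) • x1 + (1 / 2 : ℝ) • x2, min ρ1 ρ2 / 2, by positivity, fun t ht => ?_⟩
    have a1 : |2 * t i| ≤ ρ1 := by
      rw [abs_mul, abs_two]; linarith [min_le_left ρ1 ρ2, ht i]
    have a2 : ∀ j, |2 * t j| ≤ ρ2 := fun j => by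
      rw [abs_mul, abs_two]; linarith [min_le_right ρ1 ρ2, ht j]
    have := hK (h1 _ a1) (h2 (fun j => 2 * t j) a2) (show (0 : ℝ) ≤ 1 / 2 by norm_num)
      (show (0 : ℝ) ≤ 1 / 2 by norm_num) (by norm_num)
    have e2 : ∑ j ∈ s, (2 * t j) • z j = (2 : ℝ) • ∑ j ∈ s, t j • z j := by
      rw [Finset.smul_sum]
      exact Finset.sum_congr rfl fun j _ => mul_smul _ _ _
    rw [e2] at this
    rw [Finset.sum_insert hi]
    have e : (1 / 2 : ℝ) • x1 + (1 / 2 : ℝ) • x2 + (t i • z i + ∑ j ∈ s, t j • z j) =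
        (1 / 2 : ℝ) • (x1 + (2 * t i) • z i) +
          (1 / 2 : ℝ) • (x2 + (2 : ℝ) • ∑ j ∈ s, t j • z j) := by module
    rw [e]; exact this

theorem no_retract [CompleteSpace X] {I : ℕ → Type} [∀ k, Fintype (I k)] (E : Enflo X I)
    (K : Set X) (hK : IsCompact K) (hc : Convex ℝ K) (h0 : (0 : X) ∈ K)
    (hd : Dense ((Submodule.span ℝ K : Submodule ℝ X) : Set X))
    (r : X → X) (L : NNReal) (hr : LipschitzWith L r) (hrK : ∀ x, r x ∈ K)
    (hfix : ∀ x ∈ K, r x = x) : False := by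
  obtain ⟨k0, ε, hε, h⟩ := core E L
  have hz : ∀ j, ∃ z ∈ Submodule.span ℝ K, ‖z - E.e k0 j‖ ≤ ε := by
    intro j
    obtain ⟨z, hz1, hz2⟩ := hd.exists_dist_lt (E.e k0 j) hε
    exact ⟨z, hz1, by rw [← dist_eq_norm, dist_comm]; exact hz2.le⟩
  choose z hz1 hz2 using hz
  obtain ⟨x0, ρ, hρ, hcube⟩ := cube_of_mem_span hc h0 z hz1 Finset.univ
  refine h K r x0 z ρ hK hr hrK hρ hz2 fun t ht => ?_
  have h1 := hcube (fun j => t j * ρ) (fun j => by
    rw [abs_mul, abs_of_pos hρ]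
    exact mul_le_of_le_one_left hρ.le (ht j))
  simp only [mul_smul] at h1
  rw [hfix _ h1, sub_self, norm_zero]
  positivity

theorem Sys.complete (S : Sys) : CompleteSpace S.sub := S.isClosed_sub.completeSpace_coe

theorem Sys.separable (S : Sys) : TopologicalSpace.SeparableSpace S.sub := by
  haveI := separable_Amb
  haveI : SecondCountableTopology Amb := UniformSpace.secondCountable_of_separable Amb
  infer_instance

end Pool.Agent.Lib.MP_ed68f3_an
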