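import Mathlib

/-!
Gluing two Lipschitz maps that fix a compact set, by interpolation along the distance to the set.
-/

set_option autoImplicit false

namespace Pool.Agent.Lib.MP_ed68f3_an.Pi

open Metric Set

/-- The cut-off function: one up to `1`, zero from `2` on. -/
noncomputable def th (s : ℝ) : ℝ := max 0 (min 1 (2 - s))

theorem th_nonneg (s : ℝ) : 0 ≤ th s := le_max_left _ _

theorem th_le_one (s : ℝ) : th s ≤ 1 := max_le zero_le_one (min_le_left _ _)

theorem th_of_le {s : ℝ} (h : s ≤ 1) : th s = 1 := by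
  unfold th
  rw [min_eq_left (by linarith), max_eq_right zero_le_one]

theorem th_of_ge {s : ℝ} (h : 2 ≤ s) : th s = 0 := by
  unfold th
  exact max_eq_left ((min_le_right _ _).trans (by linarith))

theorem th_lip (s t : ℝ) : |th s - th t| ≤ |s - t| := by
  unfold th
  have h1 := le_abs_self (s - t)
  have h2 := neg_abs_le (s - t)
  rw [abs_le]
  constructor <;> simp only [max_def, min_def] <;> split_ifs <;> linarith

theorem th_mul_le (s : ℝ) : th s * s ≤ 1 := by
  unfold th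
  simp only [max_def, min_def]
  split_ifs <;> nlinarith [sq_nonneg (s - 1)]

theorem one_sub_th_le {s a : ℝ} (ha : 0 ≤ a) (h : s ≤ 1 + a) : 1 - th s ≤ a := by
  unfold th
  simp only [max_def, min_def]
  split_ifs <;> linarith

variable {X : Type*} [NormedAddCommGroup X] [NormedSpace ℝ X]

/-- The interpolation of `f` (near `K`) and `g` (far from `K`) at scale `t`. -/
noncomputable def mix (K : Set X) (t : ℝ) (f g : X → X) (x : X) : X :=
  th (infDist x K / t) • f x + (1 - th (infDist x K / t)) • g x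

/-- The Lipschitz condition on a set, with a real constant. -/
def LipOn (a : ℝ) (f : X → X) (W : Set X) : Prop :=
  ∀ x ∈ W, ∀ y ∈ W, ‖f x - f y‖ ≤ a * ‖x - y‖

omit [NormedSpace ℝ X] in
theorem LipOn.mono {a b : ℝ} {f : X → X} {W W' : Set X} (h : LipOn a f W) (hab : a ≤ b)
    (hW : W' ⊆ W) : LipOn b f W' := fun x hx y hy =>
  (h x (hW hx) y (hW hy)).trans (mul_le_mul_of_nonneg_right hab (norm_nonneg _))

omit [NormedSpace ℝ X] in
theorem LipOn.congr {a : ℝ} {f g : X → X} {W : Set X} (h : LipOn a f W)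
    (hfg : ∀ x ∈ W, g x = f x) : LipOn a g W := fun x hx y hy => by
  rw [hfg x hx, hfg y hy]; exact h x hx y hy

theorem mix_near {K : Set X} {t : ℝ} (ht : 0 < t) (f g : X → X) {x : X} (h : infDist x K ≤ t) :
    mix K t f g x = f x := by
  unfold mix
  rw [th_of_le ((div_le_one ht).2 h)]
  simp

theorem mix_far {K : Set X} {t : ℝ} (ht : 0 < t) (f g : X → X) {x : X}
    (h : 2 * t ≤ infDist x K) : mix K t f g x = g x := by
  unfold mix
  rw [th_of_ge ((le_div_iff₀ ht).2 h)]
  simp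

theorem mix_mem {K S : Set X} (hS : Convex ℝ S) (t : ℝ) {f g : X → X} {x : X} (hf : f x ∈ S)
    (hg : g x ∈ S) : mix K t f g x ∈ S :=
  hS hf hg (th_nonneg _) (sub_nonneg.2 (th_le_one _)) (by ring)

omit [NormedSpace ℝ X] in
theorem abs_infDist_sub (K : Set X) (x y : X) : |infDist x K - infDist y K| ≤ ‖x - y‖ := by
  have h := (lipschitz_infDist_pt K).dist_le_mul x y
  simpa [Real.dist_eq, dist_eq_norm] using h

theorem mix_pt {K : Set X} {t a b D : ℝ} (ht : 0 < t) {f g : X → X} {x y : X}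
    (ha : ‖f x - f y‖ ≤ a * ‖x - y‖)
    (hb : (1 - th (infDist y K / t)) * ‖g x - g y‖ ≤ b * ‖x - y‖)
    (hD : ‖f x - g x‖ ≤ D * t) :
    ‖mix K t f g x - mix K t f g y‖ ≤ (a + b + D) * ‖x - y‖ := by
  set u := th (infDist x K / t) with hu
  set v := th (infDist y K / t) with hv
  have e : mix K t f g x - mix K t f g y =
      v • (f x - f y) + (1 - v) • (g x - g y) + (u - v) • (f x - g x) := by
    unfold mix
    rw [← hu, ← hv]
    module
  have hv0 : 0 ≤ v := th_nonneg _
  have hv1 : v ≤ 1 := th_le_one _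
  have huv : |u - v| ≤ ‖x - y‖ / t := by
    refine (th_lip _ _).trans ?_
    rw [← sub_div, abs_div, abs_of_pos ht]
    exact div_le_div_of_nonneg_right (abs_infDist_sub K x y) ht.le
  have h1 : ‖v • (f x - f y)‖ ≤ a * ‖x - y‖ := by
    rw [norm_smul, Real.norm_of_nonneg hv0]
    calc v * ‖f x - f y‖ ≤ 1 * ‖f x - f y‖ := mul_le_mul_of_nonneg_right hv1 (norm_nonneg _)
      _ ≤ a * ‖x - y‖ := by rw [one_mul]; exact ha
  have h2 : ‖(1 - v) • (g x - g y)‖ ≤ b * ‖x - y‖ := by
    rw [norm_smul, Real.norm_of_nonneg (sub_nonneg.2 hv1)]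
    exact hb
  have h3 : ‖(u - v) • (f x - g x)‖ ≤ D * ‖x - y‖ := by
    rw [norm_smul, Real.norm_eq_abs]
    calc |u - v| * ‖f x - g x‖ ≤ (‖x - y‖ / t) * (D * t) :=
          mul_le_mul huv hD (norm_nonneg _) (by positivity)
      _ = D * ‖x - y‖ := by field_simp
  rw [e]
  calc _ ≤ ‖v • (f x - f y)‖ + ‖(1 - v) • (g x - g y)‖ + ‖(u - v) • (f x - g x)‖ :=
        norm_add₃_le
    _ ≤ _ := by linarith

omit [NormedSpace ℝ X] in
theorem sub_le_of_fix {K W : Set X} (hK : IsCompact K) (hne : K.Nonempty) (hW : K ⊆ W) {a b : ℝ}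
    {f g : X → X} (hf : LipOn a f W) (hg : LipOn b g W) (ff : ∀ k ∈ K, f k = k)
    (gf : ∀ k ∈ K, g k = k) {x : X} (hx : x ∈ W) : ‖f x - g x‖ ≤ (a + b) * infDist x K := by
  obtain ⟨k, hk, e⟩ := hK.exists_infDist_eq_dist hne x
  have h1 := hf x hx k (hW hk)
  have h2 := hg x hx k (hW hk)
  rw [ff k hk] at h1
  rw [gf k hk] at h2
  rw [e, dist_eq_norm]
  calc ‖f x - g x‖ = ‖(f x - k) - (g x - k)‖ := by congr 1; abel
    _ ≤ ‖f x - k‖ + ‖g x - k‖ := norm_sub_le _ _
    _ ≤ _ := by linarith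

theorem glue {K W : Set X} (hK : IsCompact K) (hne : K.Nonempty) (hW : K ⊆ W) {a b t : ℝ}
    (ht : 0 < t) (ha : 0 ≤ a) (hb : 0 ≤ b)
    {f g : X → X} (hf : LipOn a f W) (hg : LipOn b g W) (ff : ∀ k ∈ K, f k = k)
    (gf : ∀ k ∈ K, g k = k) : LipOn (3 * (a + b)) (mix K t f g) W := by
  have key : ∀ x ∈ W, ∀ y ∈ W, infDist x K ≤ 2 * t →
      ‖mix K t f g x - mix K t f g y‖ ≤ 3 * (a + b) * ‖x - y‖ := by
    intro x hx y hy hd
    refine (mix_pt (K := K) (g := g) (b := b) (D := 2 * (a + b)) ht (hf x hx y hy) ?_ ?_).trans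
      (le_of_eq (by ring))
    · calc _ ≤ 1 * ‖g x - g y‖ :=
            mul_le_mul_of_nonneg_right (by linarith [th_nonneg (infDist y K / t)]) (norm_nonneg _)
        _ ≤ _ := by rw [one_mul]; exact hg x hx y hy
    · refine (sub_le_of_fix hK hne hW hf hg ff gf hx).trans ?_
      nlinarith [add_nonneg ha hb]
  intro x hx y hy
  by_cases h1 : infDist x K ≤ 2 * t
  · exact key x hx y hy h1
  by_cases h2 : infDist y K ≤ 2 * t
  · rw [norm_sub_rev, norm_sub_rev x y]
    exact key y hy x hx h2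
  rw [mix_far ht f g (not_le.1 h1).le, mix_far ht f g (not_le.1 h2).le]
  exact (hg x hx y hy).trans (mul_le_mul_of_nonneg_right (by linarith) (norm_nonneg _))

theorem lip_global {d : X → ℝ} (hd : Continuous d) {s C : ℝ} {h : X → X}
    (h1 : LipOn C h {x | d x ≤ s}) (h2 : LipOn C h {x | s ≤ d x}) : LipOn C h univ := by
  have key : ∀ x y, d x ≤ s → s ≤ d y → ‖h x - h y‖ ≤ C * ‖x - y‖ := by
    intro x y hx hy
    have hc : Continuous fun u : ℝ => d (x + u • (y - x)) := by fun_prop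
    have hI := intermediate_value_Icc (zero_le_one (α := ℝ)) hc.continuousOn
    obtain ⟨u, ⟨u0, u1⟩, hu⟩ := hI (show s ∈ Icc _ _ from ⟨by simpa using hx, by simpa using hy⟩)
    set z := x + u • (y - x) with hz
    have hzs : d z = s := hu
    have a1 := h1 x hx z hzs.le
    have a2 := h2 z hzs.ge y hy
    have e1 : ‖x - z‖ = u * ‖x - y‖ := by
      have : x - z = u • (x - y) := by rw [hz]; module
      rw [this, norm_smul, Real.norm_of_nonneg u0]
    have e2 : ‖z - y‖ = (1 - u) * ‖x - y‖ := by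
      have : z - y = (1 - u) • (x - y) := by rw [hz]; module
      rw [this, norm_smul, Real.norm_of_nonneg (sub_nonneg.2 u1)]
    rw [e1] at a1
    rw [e2] at a2
    calc ‖h x - h y‖ = ‖(h x - h z) + (h z - h y)‖ := by congr 1; abel
      _ ≤ ‖h x - h z‖ + ‖h z - h y‖ := norm_add_le _ _
      _ ≤ _ := by linarith
  intro x _ y _
  rcases le_total (d x) s with a | a <;> rcases le_total (d y) s with b | b
  · exact h1 x a y b
  · exact key x y a b
  · rw [norm_sub_rev, norm_sub_rev x y]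
    exact key y x b a
  · exact h2 x a y b

theorem mix_global {K : Set X} {t c C : ℝ} (ht : 0 < t) (hc : c ≤ C) {f g : X → X}
    (h1 : LipOn c (mix K t f g) {x | infDist x K ≤ 2 * t}) (h2 : LipOn C g univ) :
    LipOn C (mix K t f g) univ :=
  lip_global (continuous_infDist_pt K) (h1.mono hc Subset.rfl)
    ((h2.mono le_rfl (subset_univ _)).congr fun _ hx => mix_far ht f g hx)

theorem infDist_mix_id {K : Set X} (hK : IsCompact K) (hc : Convex ℝ K) {t : ℝ} (ht : 0 < t)
    {g : X → X} {x : X} (hg : g x ∈ K) : infDist (mix K t id g x) K ≤ t := by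
  obtain ⟨k, hk, e⟩ := hK.exists_infDist_eq_dist ⟨_, hg⟩ x
  set u := th (infDist x K / t) with hu
  have hm : u • k + (1 - u) • g x ∈ K :=
    hc hk hg (th_nonneg _) (sub_nonneg.2 (th_le_one _)) (by ring)
  refine (infDist_le_dist_of_mem hm).trans ?_
  have e2 : mix K t id g x - (u • k + (1 - u) • g x) = u • (x - k) := by
    unfold mix
    rw [← hu]
    simp only [id]
    module
  rw [dist_eq_norm, e2, norm_smul, Real.norm_of_nonneg (th_nonneg _), ← dist_eq_norm, ← e]
  have h := th_mul_le (infDist x K / t)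
  rw [← hu, ← mul_div_assoc, div_le_one ht] at h
  exact h

theorem infDist_map_le {K : Set X} (hK : IsCompact K) (hne : K.Nonempty) {Q : X →L[ℝ] X} {L : ℝ}
    (hQ : ∀ x, ‖Q x‖ ≤ L * ‖x‖) (hfix : ∀ k ∈ K, Q k = k) (x : X) :
    infDist (Q x) K ≤ L * infDist x K := by
  obtain ⟨k, hk, e⟩ := hK.exists_infDist_eq_dist hne x
  refine (infDist_le_dist_of_mem hk).trans ?_
  rw [e, dist_eq_norm, dist_eq_norm]
  have : Q x - k = Q (x - k) := by rw [map_sub, hfix k hk]
  rw [this]
  exact hQ _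

theorem LipOn.comp_clm {a L : ℝ} (ha : 0 ≤ a) {f : X → X} {W W' : Set X} (h : LipOn a f W)
    {Q : X →L[ℝ] X} (hQ : ∀ x, ‖Q x‖ ≤ L * ‖x‖) (hW : ∀ x ∈ W', Q x ∈ W) :
    LipOn (a * L) (fun x => f (Q x)) W' := fun x hx y hy => by
  refine (h _ (hW x hx) _ (hW y hy)).trans ?_
  rw [← map_sub, mul_assoc]
  exact mul_le_mul_of_nonneg_left (hQ _) ha

end Pool.Agent.Lib.MP_ed68f3_an.Pi
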