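import Mathlib
import Pool.Agent.Lib.MP_ed68f3_an.PiA

/-!
Perturbation of finite-rank projections, and almost nearest points that depend on the point in a
Lipschitz way.
-/

set_option autoImplicit false

namespace Pool.Agent.Lib.MP_ed68f3_an.Pi

open Metric Set

variable {X : Type*} [NormedAddCommGroup X] [NormedSpace ℝ X]

/-- Uniformly bounded finite-rank projections that almost fix any finite set. -/
def HasPi (X : Type*) [NormedAddCommGroup X] [NormedSpace ℝ X] (lam : ℝ) : Prop :=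
  ∀ (F : Finset X) (ε : ℝ), 0 < ε → ∃ P : X →L[ℝ] X, P.comp P = P ∧
    FiniteDimensional ℝ (LinearMap.range (P : X →ₗ[ℝ] X)) ∧ ‖P‖ ≤ lam ∧ ∀ x ∈ F, ‖P x - x‖ ≤ ε

theorem perturb [CompleteSpace X] {lam : ℝ} (h : HasPi X lam) (F : Submodule ℝ X)
    [FiniteDimensional ℝ F] : ∃ (Q : X →L[ℝ] X) (E : Submodule ℝ X), FiniteDimensional ℝ E ∧
      F ≤ E ∧ (∀ x, Q x ∈ E) ∧ (∀ x ∈ E, Q x = x) ∧ ∀ x, ‖Q x‖ ≤ (3 * |lam| + 1) * ‖x‖ := by
  classical
  obtain ⟨f, hf⟩ := Submodule.ClosedComplemented.of_finiteDimensional F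
  let v := Module.finBasis ℝ F
  obtain ⟨C, hC, hv⟩ := v.exists_opNorm_le (F := X)
  have hf1 : 0 < ‖f‖ + 1 := by linarith [f.opNorm_nonneg]
  obtain ⟨P, hPP, hfin, hP, hPF⟩ := h (Finset.univ.image fun i => (v i : X))
    (1 / (2 * C * (‖f‖ + 1))) (by positivity)
  let u : F →L[ℝ] X := (ContinuousLinearMap.id ℝ X - P).comp F.subtypeL
  have hu : ‖u‖ ≤ C * (1 / (2 * C * (‖f‖ + 1))) := by
    refine hv (by positivity) fun i => ?_
    have := hPF (v i) (Finset.mem_image_of_mem _ (Finset.mem_univ i))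
    rw [norm_sub_rev] at this
    simpa [u] using this
  let S : X →L[ℝ] X := u.comp f
  have hS : ‖S‖ ≤ 1 / 2 := by
    calc ‖S‖ ≤ ‖u‖ * ‖f‖ := u.opNorm_comp_le f
      _ ≤ C * (1 / (2 * C * (‖f‖ + 1))) * (‖f‖ + 1) :=
          mul_le_mul hu (by linarith) f.opNorm_nonneg (by positivity)
      _ = 1 / 2 := by field_simp
  have hSx : ∀ x, ‖S x‖ ≤ 1 / 2 * ‖x‖ := fun x =>
    (S.le_opNorm x).trans (mul_le_mul_of_nonneg_right hS (norm_nonneg _))
  let V : (X →L[ℝ] X)ˣ := Units.oneSub S (by linarith)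
  let A : X →L[ℝ] X := V.val
  let B : X →L[ℝ] X := V.inv
  have hA : ∀ x, A x = x - S x := fun x => rfl
  have hAB : ∀ x, A (B x) = x := fun x => DFunLike.congr_fun V.val_inv x
  have hBA : ∀ x, B (A x) = x := fun x => DFunLike.congr_fun V.inv_val x
  have hPP' : ∀ x, P (P x) = P x := fun x => DFunLike.congr_fun hPP x
  have hAF : ∀ y ∈ F, A y = P y := by
    intro y hy
    have e : f y = ⟨y, hy⟩ := hf ⟨y, hy⟩
    rw [hA]
    simp [S, u, e]
  have hAn : ∀ x, ‖A x‖ ≤ 3 / 2 * ‖x‖ := fun x => by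
    rw [hA]
    linarith [norm_sub_le x (S x), hSx x]
  have hBn : ∀ x, ‖B x‖ ≤ 2 * ‖x‖ := fun x => by
    have h1 := hAB x
    rw [hA] at h1
    have h2 : B x = x + S (B x) := sub_eq_iff_eq_add.1 h1
    have h3 := norm_add_le x (S (B x))
    rw [← h2] at h3
    linarith [hSx (B x)]
  let E : Submodule ℝ X := (LinearMap.range (P : X →ₗ[ℝ] X)).map (B : X →ₗ[ℝ] X)
  refine ⟨B.comp (P.comp A), E, inferInstance, ?_, ?_, ?_, ?_⟩
  · intro y hy
    refine ⟨P y, ⟨y, rfl⟩, ?_⟩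
    change B (P y) = y
    rw [← hAF y hy, hBA]
  · intro x
    exact ⟨P (A x), ⟨A x, rfl⟩, rfl⟩
  · rintro _ ⟨_, ⟨z, rfl⟩, rfl⟩
    change B (P (A (B (P z)))) = B (P z)
    rw [hAB, hPP']
  · intro x
    change ‖B (P (A x))‖ ≤ _
    have h1 := hBn (P (A x))
    have h2 : ‖P (A x)‖ ≤ |lam| * ‖A x‖ :=
      (P.le_opNorm _).trans (mul_le_mul_of_nonneg_right (hP.trans (le_abs_self _)) (norm_nonneg _))
    have h3 := mul_le_mul_of_nonneg_left (hAn x) (abs_nonneg lam)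
    nlinarith [norm_nonneg x]

theorem isCompact_nbhd_sub {K : Set X} (hK : IsCompact K) (hne : K.Nonempty) (E : Submodule ℝ X)
    [FiniteDimensional ℝ E] (t : ℝ) : IsCompact {y : E | infDist (y : X) K ≤ t} := by
  refine isCompact_of_isClosed_isBounded
    (isClosed_le ((continuous_infDist_pt K).comp continuous_subtype_val) continuous_const) ?_
  obtain ⟨R, hR⟩ := hK.isBounded.exists_norm_le
  refine isBounded_iff_forall_norm_le.2 ⟨R + t, fun y hy => ?_⟩
  obtain ⟨k, hk, e⟩ := hK.exists_infDist_eq_dist hne (y : X)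
  have h1 : infDist (y : X) K ≤ t := hy
  rw [e, dist_eq_norm] at h1
  have h2 := norm_add_le k ((y : X) - k)
  rw [add_sub_cancel] at h2
  change ‖(y : X)‖ ≤ R + t
  linarith [hR k hk]

theorem isCompact_nbhd {K : Set X} (hK : IsCompact K) (hne : K.Nonempty) (E : Submodule ℝ X)
    [FiniteDimensional ℝ E] (t : ℝ) : IsCompact {y : X | y ∈ E ∧ infDist y K ≤ t} := by
  have h := (isCompact_nbhd_sub hK hne E t).image continuous_subtype_val
  convert h using 1
  ext y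
  constructor
  · rintro ⟨h1, h2⟩
    exact ⟨⟨y, h1⟩, h2, rfl⟩
  · rintro ⟨z, hz, rfl⟩
    exact ⟨z.2, hz⟩

theorem convex_nbhd {K : Set X} (hK : IsCompact K) (hne : K.Nonempty) (hc : Convex ℝ K)
    (E : Submodule ℝ X) (t : ℝ) : Convex ℝ {y : X | y ∈ E ∧ infDist y K ≤ t} := by
  rintro x ⟨hx, hx'⟩ y ⟨hy, hy'⟩ a b ha hb hab
  refine ⟨E.add_mem (E.smul_mem _ hx) (E.smul_mem _ hy), ?_⟩
  obtain ⟨k, hk, e⟩ := hK.exists_infDist_eq_dist hne x
  obtain ⟨l, hl, e'⟩ := hK.exists_infDist_eq_dist hne y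
  rw [e, dist_eq_norm] at hx'
  rw [e', dist_eq_norm] at hy'
  refine (infDist_le_dist_of_mem (hc hk hl ha hb hab)).trans ?_
  have e2 : a • x + b • y - (a • k + b • l) = a • (x - k) + b • (y - l) := by module
  rw [dist_eq_norm, e2]
  calc _ ≤ ‖a • (x - k)‖ + ‖b • (y - l)‖ := norm_add_le _ _
    _ = a * ‖x - k‖ + b * ‖y - l‖ := by
        rw [norm_smul, norm_smul, Real.norm_of_nonneg ha, Real.norm_of_nonneg hb]
    _ ≤ a * t + b * t :=
        add_le_add (mul_le_mul_of_nonneg_left hx' ha) (mul_le_mul_of_nonneg_left hy' hb)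
    _ = t := by rw [← add_mul, hab, one_mul]

theorem centre {K : Set X} (hK : IsCompact K) (hne : K.Nonempty) (hc : Convex ℝ K)
    (E : Submodule ℝ X) [FiniteDimensional ℝ E] {ε : ℝ} (hε : 0 < ε) :
    ∃ (c : X → X) (M : ℝ), 0 ≤ M ∧ (∀ x, c x ∈ K) ∧
      (∀ y ∈ E, ‖y - c y‖ ≤ infDist y K + ε) ∧
      LipOn M c {y : X | y ∈ E ∧ infDist y K ≤ 2 * ε} := by
  classical
  obtain ⟨g, hg⟩ := exists_contMDiffMap_forall_mem_convex_of_local_const (n := 1)
    (modelWithCornersSelf ℝ E) (M := E) (F := X)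
    (t := fun y => K ∩ closedBall (y : X) (infDist (y : X) K + ε))
    (fun y => hc.inter (convex_closedBall _ _)) (fun y => by
      obtain ⟨k, hk, e⟩ := hK.exists_infDist_eq_dist hne (y : X)
      refine ⟨k, ?_⟩
      filter_upwards [ball_mem_nhds y (half_pos hε)] with z hz
      refine ⟨hk, ?_⟩
      have h1 : dist (z : X) y < ε / 2 := hz
      have h2 : infDist (y : X) K ≤ infDist (z : X) K + dist (y : X) z :=
        infDist_le_infDist_add_dist
      have h3 := dist_triangle k (y : X) z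
      rw [mem_closedBall]
      rw [dist_comm k y, ← e] at h3
      rw [dist_comm (z : X) y] at h1
      linarith)
  have hd : ContDiff ℝ 1 g := by
    have := g.contMDiff
    exact contMDiff_iff_contDiff.1 this
  obtain ⟨M, hM⟩ := LocallyLipschitzOn.exists_lipschitzOnWith_of_compact
    (isCompact_nbhd_sub hK hne E (2 * ε)) (hd.locallyLipschitz.locallyLipschitzOn)
  refine ⟨fun x => if h : x ∈ E then g ⟨x, h⟩ else g 0, M, M.2, ?_, ?_, ?_⟩
  · intro x
    dsimp only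
    split_ifs
    · exact (hg _).1
    · exact (hg _).1
  · intro y hy
    have h := (hg ⟨y, hy⟩).2
    rw [mem_closedBall, dist_comm, dist_eq_norm] at h
    simpa [hy] using h
  · rintro x ⟨hx, hx'⟩ y ⟨hy, hy'⟩
    have h := hM.dist_le_mul ⟨x, hx⟩ hx' ⟨y, hy⟩ hy'
    simpa [hx, hy, dist_eq_norm, Subtype.dist_eq] using h

end Pool.Agent.Lib.MP_ed68f3_an.Pi
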