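import Mathlib
import Pool.Agent.Lib.MP_ed68f3_an.PiB

/-!
The inductive step: a finite-dimensional compact convex retract is thickened inside a larger
finite-dimensional subspace without any loss in the Lipschitz constants.
-/

set_option autoImplicit false

namespace Pool.Agent.Lib.MP_ed68f3_an.Pi

open Metric Set

variable {X : Type*} [NormedAddCommGroup X] [NormedSpace ℝ X]

/-- The global Lipschitz constant. -/
def CC (L : ℝ) : ℝ := 3 * (5 * L + 3 * (3 * (1 + 5 * L) * L + 5 * L))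

/-- The invariant of the construction. -/
structure Good (L : ℝ) (K : Set X) (E : Submodule ℝ X) (ρ : ℝ) : Prop where
  cpt : IsCompact K
  cvx : Convex ℝ K
  zero : (0 : X) ∈ K
  fin : FiniteDimensional ℝ E
  sub : ∀ x ∈ K, x ∈ E
  pos : 0 < ρ
  ball : ∀ x ∈ E, ‖x‖ ≤ ρ → x ∈ K
  ret : ∃ (η : ℝ) (r : X → X), 0 < η ∧ (∀ x, r x ∈ K) ∧ (∀ k ∈ K, r k = k) ∧
    LipOn (CC L) r univ ∧ LipOn (5 * L) r {x | infDist x K ≤ η}

theorem good_zero {L : ℝ} (hL : 1 ≤ L) : Good L ({0} : Set X) ⊥ 1 where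
  cpt := isCompact_singleton
  cvx := convex_singleton _
  zero := rfl
  fin := inferInstance
  sub := fun x hx => by simpa using hx
  pos := one_pos
  ball := fun x hx _ => by simpa using hx
  ret := by
    have h0 : 0 ≤ L := by linarith
    refine ⟨1, fun _ => 0, one_pos, fun _ => rfl, fun k hk => (mem_singleton_iff.1 hk).symm, ?_, ?_⟩
    · intro x _ y _
      simp only [sub_self, norm_zero]
      unfold CC
      positivity
    · intro x _ y _
      simp only [sub_self, norm_zero]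
      positivity

omit [NormedSpace ℝ X] in
theorem lipOn_id (W : Set X) : LipOn 1 id W := fun x _ y _ => by simp

theorem step {L : ℝ} (hL : 1 ≤ L) {K : Set X} {E : Submodule ℝ X} {ρ : ℝ} (hG : Good L K E ρ)
    {Q : X →L[ℝ] X} {E' : Submodule ℝ X} [FiniteDimensional ℝ E'] (hE : E ≤ E')
    (hQm : ∀ x, Q x ∈ E') (hQf : ∀ x ∈ E', Q x = x) (hQ : ∀ x, ‖Q x‖ ≤ L * ‖x‖)
    {β : ℝ} (hβ : 0 < β) :
    ∃ (K' : Set X) (ε : ℝ), Good L K' E' ε ∧ K ⊆ K' ∧ ε ≤ β ∧ ∀ y ∈ K', infDist y K ≤ ε := by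
  obtain ⟨η, r, hη, rm, rf, rg, rl⟩ := hG.ret
  have hK := hG.cpt
  have hc := hG.cvx
  have hne : K.Nonempty := ⟨0, hG.zero⟩
  have hL0 : 0 < L := by linarith
  obtain ⟨ε, hε, hεβ, hεη⟩ : ∃ ε : ℝ, 0 < ε ∧ ε ≤ β ∧ L * (2 * ε) ≤ η := by
    refine ⟨min β (η / (2 * L)), lt_min hβ (by positivity), min_le_left _ _, ?_⟩
    have h := min_le_right β (η / (2 * L))
    rw [le_div_iff₀ (by positivity)] at h
    linarith
  have hεη' : 2 * ε ≤ η := by nlinarith
  set K' : Set X := {y : X | y ∈ E' ∧ infDist y K ≤ ε} with hK'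
  have hK'c : IsCompact K' := isCompact_nbhd hK hne E' ε
  have hK'v : Convex ℝ K' := convex_nbhd hK hne hc E' ε
  have hKt : ∀ {t : ℝ}, 0 ≤ t → K ⊆ {x | infDist x K ≤ t} := fun ht k hk => by
    change infDist k K ≤ _
    rw [infDist_zero_of_mem hk]; exact ht
  have hKK : K ⊆ K' := fun k hk => ⟨hE (hG.sub k hk), hKt hε.le hk⟩
  have hne' : K'.Nonempty := hne.mono hKK
  have hQK' : ∀ k ∈ K', Q k = k := fun k hk => hQf k hk.1
  have hQK : ∀ k ∈ K, Q k = k := fun k hk => hQK' k (hKK hk)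
  have hdd : ∀ z, infDist z K ≤ infDist z K' + ε := fun z => by
    obtain ⟨k, hk, e⟩ := hK'c.exists_infDist_eq_dist hne' z
    have h1 : infDist z K ≤ infDist k K + dist z k := infDist_le_infDist_add_dist
    linarith [hk.2]
  -- a map `mix K ε id g` with `g` into `K`, composed with `Q`, retracts onto `K'`
  have mm : ∀ g : X → X, (∀ x, g x ∈ K) → ∀ x, mix K ε id g (Q x) ∈ K' := fun g hg x =>
    ⟨mix_mem (S := (E' : Set X)) E'.convex ε (hQm x) (hE (hG.sub _ (hg _))),
      infDist_mix_id hK hc hε (hg _)⟩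
  have mf : ∀ g : X → X, ∀ k ∈ K', mix K ε id g (Q k) = k := fun g k hk => by
    rw [hQK' k hk, mix_near hε _ _ hk.2]; rfl
  have g1 : LipOn (3 * (1 + 5 * L)) (mix K ε id r) {x | infDist x K ≤ η} :=
    glue hK hne (hKt hη.le) hε zero_le_one (by positivity) (lipOn_id _) rl (fun _ _ => rfl) rf
  have G1 : LipOn (3 * (1 + 5 * L) * L) (fun x => mix K ε id r (Q x))
      {x | infDist x K ≤ 2 * ε} :=
    g1.comp_clm (by positivity) hQ fun x hx =>
      (infDist_map_le hK hne hQ hQK x).trans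
        ((mul_le_mul_of_nonneg_left hx hL0.le).trans hεη)
  set r1 : X → X := mix K ε (fun x => mix K ε id r (Q x)) r with hr1
  have r1l : LipOn (3 * (3 * (1 + 5 * L) * L + 5 * L)) r1 {x | infDist x K ≤ 2 * ε} :=
    glue hK hne (hKt (by positivity)) hε (by positivity) (by positivity) G1
      (rl.mono le_rfl fun x hx => le_trans hx hεη') (fun k hk => mf r k (hKK hk)) rf
  have r1g : LipOn (CC L) r1 univ := by
    refine mix_global hε ?_ r1l rg
    unfold CC
    have : 0 ≤ 3 * (1 + 5 * L) * L := by positivity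
    linarith
  have r1m : ∀ x, r1 x ∈ K' := fun x => mix_mem hK'v ε (mm r rm x) (hKK (rm x))
  have r1f : ∀ k ∈ K', r1 k = k := fun k hk => by
    rw [hr1, mix_near hε _ _ hk.2]; exact mf r k hk
  obtain ⟨c, M, hM, cm, cn, cl⟩ := centre hK hne hc E' hε
  obtain ⟨δ, hδ, hδε, hδM⟩ : ∃ δ : ℝ, 0 < δ ∧ δ ≤ ε ∧ δ / ε * M ≤ 1 := by
    refine ⟨ε / (1 + M), by positivity, div_le_self hε.le (by linarith), ?_⟩
    have : ε / (1 + M) / ε * M = M / (1 + M) := by field_simp
    rw [this, div_le_one (by positivity)]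
    linarith
  have pl : LipOn 5 (mix K ε id c) {y : X | y ∈ E' ∧ infDist y K ≤ ε + δ} := by
    rintro x ⟨hx, hx'⟩ y ⟨hy, hy'⟩
    refine (mix_pt (K := K) (f := id) (g := c) (a := 1) (b := 1) (D := 3) hε (by simp) ?_ ?_).trans
      (le_of_eq (by ring))
    · have h1 : 1 - th (infDist y K / ε) ≤ δ / ε := by
        refine one_sub_th_le (by positivity) ?_
        rw [div_le_iff₀ hε]
        have : (1 + δ / ε) * ε = ε + δ := by field_simp
        linarith
      have h2 := cl x ⟨hx, by linarith⟩ y ⟨hy, by linarith⟩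
      calc _ ≤ δ / ε * (M * ‖x - y‖) := mul_le_mul h1 h2 (norm_nonneg _) (by positivity)
        _ = δ / ε * M * ‖x - y‖ := by ring
        _ ≤ 1 * ‖x - y‖ := mul_le_mul_of_nonneg_right hδM (norm_nonneg _)
    · have h1 := cn x hx
      change ‖x - c x‖ ≤ _
      linarith
  obtain ⟨s, hs, hsL, hsε⟩ : ∃ s : ℝ, 0 < s ∧ L * (2 * s) ≤ δ ∧ 2 * s ≤ ε := by
    have e : L * (2 * (δ / (2 * L))) = δ := by field_simp
    have hp : 0 < δ / (2 * L) := by positivity
    exact ⟨δ / (2 * L), hp, e.le, by nlinarith⟩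
  have Rl : LipOn (5 * L) (fun x => mix K ε id c (Q x)) {x | infDist x K' ≤ 2 * s} :=
    pl.comp_clm (by norm_num) hQ fun x hx => ⟨hQm x, by
      have h1 := infDist_map_le hK'c hne' hQ hQK' x
      have h2 := mul_le_mul_of_nonneg_left (show infDist x K' ≤ 2 * s from hx) hL0.le
      linarith [hdd (Q x)]⟩
  have hl : LipOn (CC L) (mix K' s (fun x => mix K ε id c (Q x)) r1)
      {x | infDist x K' ≤ 2 * s} :=
    glue hK'c hne' (fun k hk => by
        change infDist k K' ≤ _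
        rw [infDist_zero_of_mem hk]; positivity) hs (by positivity) (by positivity) Rl
      (r1l.mono le_rfl fun x hx => by
        have h1 : infDist x K' ≤ 2 * s := hx
        change infDist x K ≤ _
        linarith [hdd x]) (mf c) r1f
  refine ⟨K', ε, ⟨hK'c, hK'v, hKK hG.zero, inferInstance, fun x hx => hx.1, hε, ?_,
    s, mix K' s (fun x => mix K ε id c (Q x)) r1, hs, ?_, ?_, mix_global hs le_rfl hl r1g, ?_⟩,
    hKK, hεβ, fun y hy => hy.2⟩
  · intro x hx hn
    refine ⟨hx, (infDist_le_dist_of_mem hG.zero).trans ?_⟩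
    simpa using hn
  · exact fun x => mix_mem hK'v s (mm c cm x) (r1m x)
  · intro k hk
    rw [mix_near hs _ _ (by rw [infDist_zero_of_mem hk]; exact hs.le)]
    exact mf c k hk
  · refine (Rl.mono le_rfl fun x hx => ?_).congr fun x hx => mix_near hs _ _ hx
    have h1 : infDist x K' ≤ s := hx
    change infDist x K' ≤ _
    linarith

end Pool.Agent.Lib.MP_ed68f3_an.Pi
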