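import Mathlib
import Pool.Agent.Lib.MP_ed68f3_an.PiC

/-!
The sequence of finite-dimensional stages and its limit.
-/

set_option autoImplicit false

namespace Pool.Agent.Lib.MP_ed68f3_an.Pi

open Metric Set Filter Topology

variable {X : Type*} [NormedAddCommGroup X] [NormedSpace ℝ X]

theorem exists_seq [CompleteSpace X] {lam : ℝ} (h : HasPi X lam) (u : ℕ → X) (a : ℕ → ℝ)
    (ha : ∀ d, 0 < a d) :
    ∃ (K : ℕ → Set X) (E : ℕ → Submodule ℝ X) (ρ : ℕ → ℝ), ∀ n,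
      Good (3 * |lam| + 1) (K n) (E n) (ρ n) ∧ K n ⊆ K (n + 1) ∧ E n ≤ E (n + 1) ∧
      u n ∈ E (n + 1) ∧ 2 * ρ (n + 1) ≤ ρ n ∧
      2 * ρ (n + 1) ≤ a (Module.finrank ℝ (E n)) * ρ n ∧
      ∀ y ∈ K (n + 1), infDist y (K n) ≤ ρ (n + 1) := by
  have hL : 1 ≤ 3 * |lam| + 1 := by linarith [abs_nonneg lam]
  let St := {p : Set X × Submodule ℝ X × ℝ // Good (3 * |lam| + 1) p.1 p.2.1 p.2.2}
  have hstep : ∀ (n : ℕ) (p : St), ∃ q : St, p.1.1 ⊆ q.1.1 ∧ p.1.2.1 ≤ q.1.2.1 ∧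
      u n ∈ q.1.2.1 ∧ 2 * q.1.2.2 ≤ p.1.2.2 ∧
      2 * q.1.2.2 ≤ a (Module.finrank ℝ p.1.2.1) * p.1.2.2 ∧
      ∀ y ∈ q.1.1, infDist y p.1.1 ≤ q.1.2.2 := by
    rintro n ⟨⟨K, E, ρ⟩, hG⟩
    have hfin : FiniteDimensional ℝ E := hG.fin
    have hρ : 0 < ρ := hG.pos
    obtain ⟨Q, E', hE', hle, hm, hf, hn⟩ := perturb h (E ⊔ Submodule.span ℝ {u n})
    have hb := ha (Module.finrank ℝ E)
    obtain ⟨K', ε, hG', hKK, hε, hd⟩ := step hL hG (le_sup_left.trans hle) hm hf hn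
      (β := min (ρ / 2) (a (Module.finrank ℝ E) * ρ / 2)) (lt_min (by positivity) (by positivity))
    refine ⟨⟨(K', E', ε), hG'⟩, hKK, le_sup_left.trans hle,
      hle (Submodule.mem_sup_right (Submodule.mem_span_singleton_self _)), ?_, ?_, hd⟩
    · have := hε.trans (min_le_left _ _)
      change 2 * ε ≤ ρ
      linarith
    · have := hε.trans (min_le_right _ _)
      change 2 * ε ≤ a (Module.finrank ℝ E) * ρ
      linarith
  choose nx hnx using hstep
  let s : ℕ → St := fun n => Nat.rec ⟨({0}, ⊥, 1), good_zero hL⟩ nx n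
  exact ⟨fun n => (s n).1.1, fun n => (s n).1.2.1, fun n => (s n).1.2.2,
    fun n => ⟨(s n).2, hnx n (s n)⟩⟩

theorem limit [CompleteSpace X] {L : ℝ} {K : ℕ → Set X} {E : ℕ → Submodule ℝ X} {ρ : ℕ → ℝ}
    (hG : ∀ n, Good L (K n) (E n) (ρ n)) (hK : ∀ n, K n ⊆ K (n + 1))
    (hρ : ∀ n, 2 * ρ (n + 1) ≤ ρ n) (hd : ∀ n, ∀ y ∈ K (n + 1), infDist y (K n) ≤ ρ (n + 1)) :
    IsCompact (closure (⋃ n, K n)) ∧ Convex ℝ (closure (⋃ n, K n)) ∧
      (∀ n, ∀ x ∈ closure (⋃ n, K n), infDist x (K n) ≤ 2 * ρ (n + 1)) ∧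
      ∃ r : X → X, (∀ x, r x ∈ closure (⋃ n, K n)) ∧ (∀ k ∈ closure (⋃ n, K n), r k = k) ∧
        LipOn (CC L) r univ := by
  have hmono : Monotone K := monotone_nat_of_le_succ hK
  have hne : ∀ n, (K n).Nonempty := fun n => ⟨0, (hG n).zero⟩
  have tail : ∀ n m, ∀ x ∈ K (n + m), infDist x (K n) ≤ 2 * ρ (n + 1) - 2 * ρ (n + m + 1) := by
    intro n m
    induction m with
    | zero =>
      intro x hx
      rw [infDist_zero_of_mem (show x ∈ K n from hx)]
      simp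
    | succ m ih =>
      intro x hx
      obtain ⟨k, hk, e⟩ := (hG (n + m)).cpt.exists_infDist_eq_dist (hne _) x
      have h1 := hd (n + m) x hx
      have h2 : infDist x (K n) ≤ infDist k (K n) + dist x k := infDist_le_infDist_add_dist
      have h3 := ih k hk
      have h4 := hρ (n + m + 1)
      change _ ≤ 2 * ρ (n + 1) - 2 * ρ (n + m + 1 + 1)
      linarith
  have tail' : ∀ n, ∀ x ∈ closure (⋃ n, K n), infDist x (K n) ≤ 2 * ρ (n + 1) := by
    intro n
    refine closure_minimal (t := {x | infDist x (K n) ≤ 2 * ρ (n + 1)}) ?_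
      (isClosed_le (continuous_infDist_pt _) continuous_const)
    intro x hx
    obtain ⟨j, hj⟩ := mem_iUnion.1 hx
    have h1 := tail n j x (hmono (Nat.le_add_left j n) hj)
    have h2 := (hG (n + j + 1)).pos
    change infDist x (K n) ≤ _
    linarith
  have hρn : ∀ n, ρ n ≤ ρ 0 * (1 / 2) ^ n := by
    intro n
    induction n with
    | zero => simp
    | succ n ih =>
      have := hρ n
      rw [pow_succ]
      linarith
  have hcpt : IsCompact (closure (⋃ n, K n)) := by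
    refine TotallyBounded.isCompact_of_isClosed ?_ isClosed_closure
    refine Metric.totallyBounded_iff.2 fun ε hε => ?_
    have h0 := (hG 0).pos
    obtain ⟨n, hn⟩ := exists_pow_lt_of_lt_one (show 0 < ε / 2 / ρ 0 by positivity)
      (show (1 / 2 : ℝ) < 1 by norm_num)
    rw [lt_div_iff₀ h0] at hn
    obtain ⟨t, ht, hc⟩ := Metric.totallyBounded_iff.1 (hG n).cpt.totallyBounded (ε / 2)
      (half_pos hε)
    refine ⟨t, ht, fun x hx => ?_⟩
    obtain ⟨k, hk, e⟩ := (hG n).cpt.exists_infDist_eq_dist (hne _) x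
    obtain ⟨y, hy, hky⟩ := mem_iUnion₂.1 (hc hk)
    refine mem_iUnion₂.2 ⟨y, hy, ?_⟩
    rw [mem_ball] at hky ⊢
    linarith [tail' n x hx, hρ n, hρn n, dist_triangle x k y]
  refine ⟨hcpt, ((hmono.directed_le).convex_iUnion fun n => (hG n).cvx).closure, tail', ?_⟩
  choose η r hη rm rf rg rl using fun n => (hG n).ret
  have lim : ∀ x, ∃ z ∈ closure (⋃ n, K n),
      Tendsto (fun n => r n x) (hyperfilter ℕ : Filter ℕ) (𝓝 z) := fun x => by
    obtain ⟨z, hz, hl⟩ := hcpt.ultrafilter_le_nhds ((hyperfilter ℕ).map fun n => r n x)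
      (le_principal_iff.2 (mem_map.2 (univ_mem' fun n =>
        subset_closure (mem_iUnion.2 ⟨n, rm n x⟩))))
    exact ⟨z, hz, hl⟩
  choose R Rm Rt using lim
  have Rl : LipOn (CC L) R univ := fun x _ y _ =>
    le_of_tendsto' ((Rt x).sub (Rt y)).norm fun n => rg n x trivial y trivial
  refine ⟨R, Rm, ?_, Rl⟩
  have Rc : Continuous R := by
    refine (LipschitzWith.of_dist_le_mul (K := (CC L).toNNReal) fun x y => ?_).continuous
    rw [dist_eq_norm, dist_eq_norm]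
    exact (Rl x trivial y trivial).trans
      (mul_le_mul_of_nonneg_right (Real.le_coe_toNNReal _) (norm_nonneg _))
  refine closure_minimal (t := {k | R k = k}) ?_ (isClosed_eq Rc continuous_id)
  intro k hk
  obtain ⟨j, hj⟩ := mem_iUnion.1 hk
  refine tendsto_nhds_unique (Rt k) (tendsto_const_nhds.congr' ?_)
  have hev : ∀ᶠ n in (hyperfilter ℕ : Filter ℕ), j ≤ n :=
    (eventually_ge_atTop j).filter_mono Nat.hyperfilter_le_atTop
  filter_upwards [hev] with n hn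
  exact (rf n k (hmono hn hj)).symm

end Pool.Agent.Lib.MP_ed68f3_an.Pi
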